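import Pool.Agent.K9h13.FH.St
import Pool.Agent.K9h13.FE.E1

/-! # Moments over configurations in a log-thick set -/

set_option autoImplicit false

namespace Pool.Agent.K9h13.FH

open Finset Filter Topology
open Pool.Agent.N646.RO (Rgh S_MB S_BB)
open Pool.Agent.K9h13.FE (exchange)

open Classical in
/-- the rough elements, block by block -/
theorem blk (δ : ℝ) (N L : ℕ) (hL : 1 ≤ L) (V : Finset ℕ) (n : ℕ) :
    ((V.filter (fun t : ℕ => Rgh δ N (n + t))).card : ℝ) ≤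
      ∑ j ∈ V.image (fun v => v / L),
        (((range L).filter (fun v : ℕ => Rgh δ N (((n + j * L : ℕ) : ℤ) + v))).card : ℝ) := by
  have h1 : (V.filter (fun t : ℕ => Rgh δ N (n + t))).card =
      ∑ j ∈ V.image (fun v => v / L),
        ((V.filter (fun t : ℕ => Rgh δ N (n + t))).filter (fun t => t / L = j)).card := by
    apply card_eq_sum_card_fiberwise
    intro t ht
    exact mem_coe.2 (mem_image_of_mem _ (mem_filter.1 (mem_coe.1 ht)).1)
  rw [h1]
  push_cast
  apply sum_le_sum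
  intro j _
  have h5 : ((V.filter (fun t : ℕ => Rgh δ N (n + t))).filter (fun t => t / L = j)).card ≤
      ((range L).filter (fun v : ℕ => Rgh δ N (((n + j * L : ℕ) : ℤ) + v))).card := by
    apply card_le_card_of_injOn (fun t => t % L)
    · intro t ht
      rw [mem_coe, mem_filter, mem_filter] at ht
      rw [mem_coe, mem_filter, mem_range]
      refine ⟨Nat.mod_lt _ (by omega), ?_⟩
      have h2 := Nat.div_add_mod t L
      rw [ht.2] at h2
      have h3 : n + j * L + t % L = n + t := by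
        calc n + j * L + t % L = n + (L * j + t % L) := by ring
          _ = n + t := by rw [h2]
      have e : (((n + j * L : ℕ) : ℤ) + ((t % L : ℕ) : ℤ)) = (n : ℤ) + t := by exact_mod_cast h3
      show Rgh δ N (((n + j * L : ℕ) : ℤ) + ((t % L : ℕ) : ℤ))
      rw [e]
      exact ht.1.2
    · intro t ht u hu h
      rw [mem_coe, mem_filter] at ht hu
      have h2 := Nat.div_add_mod t L
      have h3 := Nat.div_add_mod u L
      rw [ht.2] at h2
      rw [hu.2] at h3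
      have h4 : t % L = u % L := h
      rw [← h2, ← h3, h4]
  have h6 : ((((V.filter (fun t : ℕ => Rgh δ N (n + t))).filter (fun t => t / L = j)).card : ℕ) : ℝ) ≤
      ((((range L).filter (fun v : ℕ => Rgh δ N (((n + j * L : ℕ) : ℤ) + v))).card : ℕ) : ℝ) := by
    exact_mod_cast h5
  push_cast at h6
  exact h6

open Classical in
/-- the moments of the number of the rough `n + v`, `v ∈ V` -/
theorem wbT (hM : S_MB) (δ c₀ : ℝ) (r : ℕ) (hδ : 0 < δ) (hc₀ : 0 < c₀) :
    ∃ C : ℝ, 0 < C ∧ ∀ᶠ N : ℕ in atTop, ∀ V : Finset ℕ, Thk c₀ N V →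
      ∑ n ∈ Icc (N / 18) (2 * N), ((V.filter (fun t : ℕ => Rgh δ N (n + t))).card : ℝ) ^ r ≤
        C * N * (V.card / Real.log N) ^ r := by
  obtain ⟨C, hC, h⟩ := hM δ r hδ
  refine ⟨C * (1 / c₀) ^ r, by positivity, ?_⟩
  filter_upwards [h, eventually_ge_atTop 100] with N hN hN3 V hV
  obtain ⟨hVne, hV2, hVc⟩ := hV
  have hlog : 0 < Real.log N := Real.log_pos (by exact_mod_cast (by omega : 1 < N))
  obtain ⟨L, hL⟩ : ∃ L, L = ⌊Real.log N⌋₊ + 1 := ⟨_, rfl⟩
  rw [← hL] at hN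
  obtain ⟨J, hJ⟩ : ∃ J, J = V.image (fun v => v / L) := ⟨_, rfl⟩
  have hnb : nb N V = J.card := by rw [hJ, hL]; rfl
  rw [hnb] at hVc
  have hJne : J.Nonempty := by rw [hJ]; exact hVne.image _
  obtain ⟨y, hy⟩ : ∃ y : ℕ → ℕ → ℝ, y = fun j n =>
    (((range L).filter (fun v : ℕ => Rgh δ N (((n + j * L : ℕ) : ℤ) + v))).card : ℝ) := ⟨_, rfl⟩
  have hy0 : ∀ j n, 0 ≤ y j n := by
    intro j n
    rw [hy]
    exact Nat.cast_nonneg _
  -- one block
  have h1 : ∀ j ∈ J, ∑ n ∈ Icc (N / 18) (2 * N), y j n ^ r ≤ C * N := by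
    intro j hj
    rw [hJ, mem_image] at hj
    obtain ⟨v, hv, hvj⟩ := hj
    have h2 : j * L ≤ v := by rw [← hvj]; exact Nat.div_mul_le_self v L
    have h3 := hV2 v hv
    refine le_trans ?_ hN
    obtain ⟨f, hf⟩ : ∃ f : ℕ → ℝ, f = fun m : ℕ =>
      (((range L).filter (fun v : ℕ => Rgh δ N ((m : ℤ) + v))).card : ℝ) ^ r := ⟨_, rfl⟩
    have e1 : ∑ n ∈ Icc (N / 18) (2 * N), y j n ^ r =
        ∑ m ∈ (Icc (N / 18) (2 * N)).image (fun n => n + j * L), f m := by
      rw [sum_image (fun a _ b _ hab => Nat.add_right_cancel hab), hf, hy]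
    have e2 : ∑ n ∈ Icc (N / 20) (4 * N), (((range L).filter
        (fun v : ℕ => Rgh δ N (n + v))).card : ℝ) ^ r = ∑ n ∈ Icc (N / 20) (4 * N), f n := by
      rw [hf]
    rw [e1, e2]
    apply sum_le_sum_of_subset_of_nonneg
    · intro m hm
      rw [mem_image] at hm
      obtain ⟨n, hn, rfl⟩ := hm
      rw [mem_Icc] at hn ⊢
      omega
    · intro m _ _
      rw [hf]
      positivity
  have h2 : ∀ n : ℕ, ((V.filter (fun t : ℕ => Rgh δ N (n + t))).card : ℝ) ≤ ∑ j ∈ J, y j n := by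
    intro n
    rw [hJ, hy]
    exact blk δ N L (by omega) V n
  have hJc : (J.card : ℝ) ≤ 1 / c₀ * (V.card / Real.log N) := by
    rw [one_div, inv_mul_eq_div, le_div_iff₀ hc₀, le_div_iff₀ hlog]
    linarith
  rcases Nat.eq_zero_or_pos r with hr | hr
  · subst hr
    obtain ⟨j, hj⟩ := hJne
    have h3 := h1 j hj
    simp only [pow_zero] at h3 ⊢
    linarith
  obtain ⟨q, rfl⟩ : ∃ q, r = q + 1 := ⟨r - 1, by omega⟩
  have hJ0 : (0 : ℝ) < J.card := by exact_mod_cast hJne.card_pos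
  have h4 : ∀ n : ℕ, ((V.filter (fun t : ℕ => Rgh δ N (n + t))).card : ℝ) ^ (q + 1) ≤
      (J.card : ℝ) ^ q * ∑ j ∈ J, y j n ^ (q + 1) := by
    intro n
    have h5 := pow_sum_div_card_le_sum_pow (s := J) (f := fun j => y j n) (fun j _ => hy0 j n) q
    rw [div_le_iff₀ (by positivity)] at h5
    calc ((V.filter (fun t : ℕ => Rgh δ N (n + t))).card : ℝ) ^ (q + 1) ≤ (∑ j ∈ J, y j n) ^ (q + 1) :=
          pow_le_pow_left₀ (Nat.cast_nonneg _) (h2 n) _
      _ ≤ _ := by linarith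
  calc ∑ n ∈ Icc (N / 18) (2 * N), ((V.filter (fun t : ℕ => Rgh δ N (n + t))).card : ℝ) ^ (q + 1)
      ≤ ∑ n ∈ Icc (N / 18) (2 * N), (J.card : ℝ) ^ q * ∑ j ∈ J, y j n ^ (q + 1) :=
        sum_le_sum fun n _ => h4 n
    _ = (J.card : ℝ) ^ q * ∑ j ∈ J, ∑ n ∈ Icc (N / 18) (2 * N), y j n ^ (q + 1) := by
        rw [← mul_sum, sum_comm]
    _ ≤ (J.card : ℝ) ^ q * ∑ _j ∈ J, C * N := by
        apply mul_le_mul_of_nonneg_left _ (by positivity)
        exact sum_le_sum h1
    _ = C * N * (J.card : ℝ) ^ (q + 1) := by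
        rw [sum_const, nsmul_eq_mul]
        ring
    _ ≤ C * N * (1 / c₀ * (V.card / Real.log N)) ^ (q + 1) := by
        apply mul_le_mul_of_nonneg_left _ (by positivity)
        exact pow_le_pow_left₀ hJ0.le hJc _
    _ = _ := by
        rw [mul_pow]
        ring

theorem e1 (hM : S_MB) (hB : S_BB) : T_E1 := by
  classical
  intro T K s δ c₀ hδ hc₀
  obtain ⟨CW, hCW, h1⟩ := wbT hM δ c₀ (2 * (T * K)) hδ hc₀
  obtain ⟨CB, hCB, h2⟩ := hB δ s 4 hδ
  refine ⟨Real.sqrt (CW * CB), Real.sqrt_pos.2 (mul_pos hCW hCB), ?_⟩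
  filter_upwards [h1, h2, eventually_ge_atTop 2] with N h1 h2 hN V hV
  have k1 := h1 V hV
  have hlog : 0 < Real.log N := Real.log_pos (by exact_mod_cast (by omega : 1 < N))
  have hex := exchange (ι := Fin T × Fin K) V (Icc (N / 18) (2 * N))
    (fun n t => Rgh δ N (n + t))
    (fun n => (((range (⌊Real.log N⌋₊ + s + 1)).filter
      (fun j : ℕ => Rgh δ N (n - j))).card : ℝ) ^ 2)
  have hcard : Fintype.card (Fin T × Fin K) = T * K := by
    rw [Fintype.card_prod, Fintype.card_fin, Fintype.card_fin]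
  rw [hcard] at hex
  obtain ⟨L, hL⟩ : ∃ L, L = ∑ n ∈ Icc (N / 18) (2 * N),
      ((V.filter (fun t : ℕ => Rgh δ N (n + t))).card : ℝ) ^ (T * K) *
      (((range (⌊Real.log N⌋₊ + s + 1)).filter
      (fun j : ℕ => Rgh δ N (n - j))).card : ℝ) ^ 2 := ⟨_, rfl⟩
  have hL2 : L ≤ Real.sqrt (CW * CB) * N * (V.card / Real.log N) ^ (T * K) := by
    have h3 := sum_mul_sq_le_sq_mul_sq (Icc (N / 18) (2 * N))
      (fun n : ℕ => ((V.filter
        (fun t : ℕ => Rgh δ N (n + t))).card : ℝ) ^ (T * K))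
      (fun n : ℕ => (((range (⌊Real.log N⌋₊ + s + 1)).filter
        (fun j : ℕ => Rgh δ N (n - j))).card : ℝ) ^ 2)
    simp only [← pow_mul] at h3
    rw [mul_comm (T * K) 2] at h3
    have h4 : (2 * 2 : ℕ) = 4 := rfl
    rw [h4] at h3
    rw [← hL] at h3
    have hL0 : 0 ≤ L := by
      rw [hL]
      exact sum_nonneg fun n _ => mul_nonneg (pow_nonneg (Nat.cast_nonneg _) _)
        (pow_nonneg (Nat.cast_nonneg _) _)
    have h5 : L ^ 2 ≤ (CW * N * (V.card / Real.log N) ^ (2 * (T * K))) * (CB * N) :=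
      h3.trans (mul_le_mul k1 h2 (sum_nonneg fun n _ => pow_nonneg (Nat.cast_nonneg _) _)
        (by positivity))
    have h6 : (Real.sqrt (CW * CB) * N * (V.card / Real.log N) ^ (T * K)) ^ 2 =
        (CW * N * (V.card / Real.log N) ^ (2 * (T * K))) * (CB * N) := by
      rw [mul_pow, mul_pow, Real.sq_sqrt (mul_pos hCW hCB).le, ← pow_mul, mul_comm (T * K) 2]
      ring
    rw [← h6] at h5
    exact (pow_le_pow_iff_left₀ hL0 (by positivity) two_ne_zero).1 h5
  rw [hL, ← hex] at hL2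
  convert hL2 using 4

end Pool.Agent.K9h13.FH
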