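import Pool.Agent.K9h13.FH.E1
import Pool.Agent.K9h13.FE.E2

/-! # The bad tuples contribute little (adapted from the starting file `N738/RQ_E2` by helper738) -/

set_option autoImplicit false

namespace Pool.Agent.K9h13.FH

open Finset Filter Topology
open Pool.Agent.N646.RO (Rgh S_MB S_BB)
open Pool.Agent.K9h13.FE (ext_count pF)
open Pool.Agent.H387R2

open Classical in
theorem e2 (hM : S_MB) (k : ℕ) : T_E2 k := by
  intro T K δ c₀ hδ hc₀
  set m := T * K - (k + 1) with hm
  obtain ⟨C, hC, hev⟩ := wbT hM δ c₀ (k + 1 + 2 * m) hδ hc₀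
  refine ⟨Real.sqrt C, Real.sqrt_pos.mpr hC, ?_⟩
  filter_upwards [hev, eventually_ge_atTop 18] with N hN hN18
  intro V hV κ hκ hκ1 π hπ
  have hTK : k + 1 ≤ T * K := by
    have := Fintype.card_le_of_injective π hπ
    simpa using this
  have hmk : k + 1 + m = T * K := by omega
  have hlog : 0 < Real.log N := Real.log_pos (by exact_mod_cast (by omega : 1 < N))
  set A : ℕ → Finset ℕ := fun n => V.filter (fun t : ℕ => Rgh δ N (n + t)) with hA
  set Q : ℕ → Finset (Fin (k + 1) → ℕ) := fun n =>
    (Fintype.piFinset (fun _ : Fin (k + 1) => V)).filter (fun F => (Function.Injective F ∧ ¬ Gu κ N F) ∧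
      (∀ i, (n + F i).Prime) ∧ ∀ i, F i ∈ A n) with hQ
  set NN := Icc (N / 18) (2 * N) with hNN
  -- exchange of the sums
  have h1 : ∑ H ∈ (Fintype.piFinset (fun _ : Fin T × Fin K => V)).filter
        (fun H => Function.Injective H ∧ ¬ Gu κ N (fun i => H (π i))),
      ((NN.filter (fun n : ℕ => (∀ x, Rgh δ N (n + H x)) ∧
        ∀ i, (n + H (π i)).Prime)).card : ℝ) =
      ∑ n ∈ NN, ((((Fintype.piFinset (fun _ : Fin T × Fin K => V)).filter
        (fun H => Function.Injective H ∧ ¬ Gu κ N (fun i => H (π i)))).filter (fun H => (∀ x, Rgh δ N (n + H x)) ∧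
        ∀ i, (n + H (π i)).Prime)).card : ℝ) := by
    simp only [card_filter, Nat.cast_sum]
    rw [sum_comm]
  rw [h1]
  -- the bound for one n
  have h2 : ∀ n ∈ NN, ((((Fintype.piFinset (fun _ : Fin T × Fin K => V)).filter
        (fun H => Function.Injective H ∧ ¬ Gu κ N (fun i => H (π i)))).filter (fun H => (∀ x, Rgh δ N (n + H x)) ∧
        ∀ i, (n + H (π i)).Prime)).card : ℝ) ≤
      Real.sqrt ((Q n).card : ℝ) * Real.sqrt (((Q n).card : ℝ) * ((A n).card : ℝ) ^ (2 * m)) := by
    intro n _
    have h3 : (((Fintype.piFinset (fun _ : Fin T × Fin K => V)).filter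
        (fun H => Function.Injective H ∧ ¬ Gu κ N (fun i => H (π i)))).filter (fun H => (∀ x, Rgh δ N (n + H x)) ∧
        ∀ i, (n + H (π i)).Prime)).card ≤ (A n).card ^ m * (Q n).card := by
      refine (card_le_mul_card_image (f := fun H => fun i => H (π i)) _ ((A n).card ^ m)
        ?_).trans (Nat.mul_le_mul_left _ (card_le_card ?_))
      · intro F _
        have h4 := ext_count π hπ (A n) F
        have h5 : Fintype.card (Fin T × Fin K) - (k + 1) = m := by simp [hm]
        rw [h5] at h4
        refine le_trans (card_le_card ?_) h4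
        intro H hH
        simp only [mem_filter, Fintype.mem_piFinset] at hH ⊢
        refine ⟨fun x => ?_, hH.2⟩
        rw [hA]
        exact mem_filter.mpr ⟨hH.1.1.1 x, hH.1.2.1 x⟩
      · intro F hF
        obtain ⟨H, hH, rfl⟩ := mem_image.mp hF
        simp only [mem_filter, Fintype.mem_piFinset] at hH
        rw [hQ]
        refine mem_filter.mpr ⟨Fintype.mem_piFinset.mpr fun i => hH.1.1 _,
          ⟨hH.1.2.1.comp hπ, hH.1.2.2⟩, hH.2.2, fun i => ?_⟩
        rw [hA]
        exact mem_filter.mpr ⟨hH.1.1 _, hH.2.1 _⟩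
    have h6 : Real.sqrt ((Q n).card : ℝ) * Real.sqrt (((Q n).card : ℝ) * ((A n).card : ℝ) ^ (2 * m))
        = ((A n).card : ℝ) ^ m * (Q n).card := by
      rw [← Real.sqrt_mul (by positivity)]
      have : ((Q n).card : ℝ) * (((Q n).card : ℝ) * ((A n).card : ℝ) ^ (2 * m)) =
          (((A n).card : ℝ) ^ m * (Q n).card) ^ 2 := by
        rw [mul_comm 2 m, pow_mul]; ring
      rw [this, Real.sqrt_sq (by positivity)]
    rw [h6]
    exact_mod_cast h3
  refine (sum_le_sum h2).trans ?_
  refine (Real.sum_sqrt_mul_sqrt_le _ (fun n => by positivity) (fun n => by positivity)).trans ?_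
  -- the first factor
  have h7 : ∑ n ∈ NN, ((Q n).card : ℝ) ≤
      (V.card : ℝ) ^ (k + 1) * (κ * (N / (Real.log N) ^ (k + 1))) := by
    have h8 : ∑ n ∈ NN, ((Q n).card : ℝ) ≤
        ∑ F ∈ (Fintype.piFinset (fun _ : Fin (k + 1) => V)).filter
          (fun F => Function.Injective F ∧ ¬ Gu κ N F), ((pF N F : ℕ) : ℝ) := by
      have h9 : ∀ n ∈ NN, ((Q n).card : ℝ) ≤
          ((((Fintype.piFinset (fun _ : Fin (k + 1) => V)).filter
          (fun F => Function.Injective F ∧ ¬ Gu κ N F)).filter (fun F => ∀ i, (n + F i).Prime)).card : ℝ) := by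
        intro n _
        have : (Q n).card ≤ (((Fintype.piFinset (fun _ : Fin (k + 1) => V)).filter
          (fun F => Function.Injective F ∧ ¬ Gu κ N F)).filter (fun F => ∀ i, (n + F i).Prime)).card := by
          refine card_le_card fun F hF => ?_
          rw [hQ] at hF
          have hF' := mem_filter.mp hF
          exact mem_filter.mpr ⟨mem_filter.mpr ⟨hF'.1, hF'.2.1⟩, hF'.2.2.1⟩
        exact_mod_cast this
      refine (sum_le_sum h9).trans ?_
      simp only [card_filter, Nat.cast_sum]
      rw [sum_comm]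
      refine sum_le_sum fun F _ => ?_
      rw [← Nat.cast_sum, ← card_filter]
      have : (NN.filter (fun n : ℕ => ∀ i, (n + F i).Prime)).card ≤ pF N F := by
        unfold pF
        refine card_le_card fun n hn => ?_
        rw [mem_filter, hNN, mem_Icc] at hn
        have h18 : 1 ≤ N / 18 := (Nat.one_le_div_iff (by norm_num)).mpr hN18
        exact mem_filter.mpr ⟨mem_Icc.mpr ⟨h18.trans hn.1.1, hn.1.2⟩, hn.2⟩
      exact_mod_cast this
    refine h8.trans ?_
    have h10 : ∀ F ∈ (Fintype.piFinset (fun _ : Fin (k + 1) => V)).filter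
          (fun F => Function.Injective F ∧ ¬ Gu κ N F), ((pF N F : ℕ) : ℝ) ≤
          κ * (N / (Real.log N) ^ (k + 1)) := by
      intro F hF
      have := (mem_filter.mp hF).2.2
      unfold Gu at this
      exact (not_le.mp this).le
    refine (sum_le_sum h10).trans ?_
    rw [sum_const, nsmul_eq_mul]
    refine mul_le_mul_of_nonneg_right ?_ (by positivity)
    have h11 : ((Fintype.piFinset (fun _ : Fin (k + 1) => V)).filter
          (fun F => Function.Injective F ∧ ¬ Gu κ N F)).card ≤ V.card ^ (k + 1) := by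
      refine (card_filter_le _ _).trans (le_of_eq ?_)
      rw [Fintype.card_piFinset, prod_const, card_univ, Fintype.card_fin]
    exact_mod_cast h11
  -- the second factor
  have h12 : ∑ n ∈ NN, ((Q n).card : ℝ) * ((A n).card : ℝ) ^ (2 * m) ≤
      C * N * (V.card / Real.log N) ^ (k + 1 + 2 * m) := by
    refine (sum_le_sum fun n _ => ?_).trans (hN V hV)
    have h13 : (Q n).card ≤ (A n).card ^ (k + 1) := by
      have h14 : (Q n).card ≤ (Fintype.piFinset (fun _ : Fin (k + 1) => A n)).card := by
        refine card_le_card fun F hF => ?_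
        rw [hQ] at hF
        have hF' := mem_filter.mp hF
        exact Fintype.mem_piFinset.mpr hF'.2.2.2
      rw [Fintype.card_piFinset_const] at h14
      simpa using h14
    have h15 : ((Q n).card : ℝ) ≤ ((A n).card : ℝ) ^ (k + 1) := by exact_mod_cast h13
    rw [pow_add _ (k + 1)]
    exact mul_le_mul_of_nonneg_right h15 (by positivity)
  refine (mul_le_mul (Real.sqrt_le_sqrt h7) (Real.sqrt_le_sqrt h12) (Real.sqrt_nonneg _)
    (Real.sqrt_nonneg _)).trans (le_of_eq ?_)
  rw [← Real.sqrt_mul (by positivity)]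
  have h16 : (V.card : ℝ) ^ (k + 1) * (κ * (N / (Real.log N) ^ (k + 1))) *
      (C * N * (V.card / Real.log N) ^ (k + 1 + 2 * m)) =
      (C * κ) * (N * (V.card / Real.log N) ^ (T * K)) ^ 2 := by
    rw [← hmk, mul_pow, ← pow_mul]
    have e : (k + 1 + m) * 2 = (k + 1) + (k + 1 + 2 * m) := by ring
    rw [e, pow_add _ (k + 1) (k + 1 + 2 * m), div_pow _ _ (k + 1)]
    field_simp
  rw [h16, Real.sqrt_mul (by positivity), Real.sqrt_sq (by positivity), Real.sqrt_mul hC.le]
  ring

end Pool.Agent.K9h13.FH
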