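import Pool.Agent.K9h13.FH.St

/-! # Most configurations have a good transversal (adapted from the starting file `N769/RQ_HITM` by helper769) -/

set_option autoImplicit false

namespace Pool.Agent.K9h13.FH

open Finset Filter Topology
open Pool.Agent.N646.RO (Rgh)
open Pool.Agent.K9h13.FE (S_HIT)

/-- Markov's inequality -/
theorem markov {α : Type} [DecidableEq α] (P E : Finset α) (W : α → ℝ) {a B : ℝ} (ha : 0 < a)
    (hE : E ⊆ P) (h0 : ∀ x ∈ P, 0 ≤ W x) (h1 : ∀ x ∈ E, a ≤ W x) (h2 : ∑ x ∈ P, W x ≤ a * B) :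
    (E.card : ℝ) ≤ B := by
  have h3 : (E.card : ℝ) * a ≤ ∑ x ∈ E, W x := by
    have := sum_le_sum h1
    rwa [sum_const, nsmul_eq_mul] at this
  have h4 : ∑ x ∈ E, W x ≤ ∑ x ∈ P, W x :=
    sum_le_sum_of_subset_of_nonneg hE fun x hx _ => h0 x hx
  have h5 : a * (E.card : ℝ) ≤ a * B := by linarith
  exact le_of_mul_le_mul_left h5 ha

theorem hitm (hH : S_HIT) (h1 : T_E1) (k : ℕ) (h2 : T_E2 k) : T_HITM k := by
  classical
  intro T M hT hTM
  obtain ⟨K, s, hK, δ, c, hδ, hc, hHIT⟩ := hH T M hT hTM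
  refine ⟨K, hK, ?_⟩
  intro c₀ δ' hc₀ hδ'
  obtain ⟨C1, hC1, hE1⟩ := h1 T K s δ c₀ hδ hc₀
  obtain ⟨C2, hC2, hE2⟩ := h2 T K δ c₀ hδ hc₀
  obtain ⟨C3, hC3⟩ : ∃ C3, C3 = 2 * C1 / δ' := ⟨_, rfl⟩
  have hC3p : 0 < C3 := by rw [hC3]; positivity
  obtain ⟨c4, hc4⟩ : ∃ c4, c4 = c ^ 2 / C3 := ⟨_, rfl⟩
  have hc4p : 0 < c4 := by rw [hc4]; positivity
  have hTK : (0 : ℝ) < ((T * K : ℕ) : ℝ) := by
    have : 0 < T * K := Nat.mul_pos hT hK
    exact_mod_cast this
  obtain ⟨q, hq⟩ : ∃ q, q = δ' * c4 / (2 * ((T * K : ℕ) : ℝ) ^ (k + 1) * C2) := ⟨_, rfl⟩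
  have hqp : 0 < q := by rw [hq]; positivity
  obtain ⟨κ, hκ⟩ : ∃ κ, κ = min 1 (q ^ 2) := ⟨_, rfl⟩
  have hκp : 0 < κ := by rw [hκ]; exact lt_min one_pos (by positivity)
  have hκ1 : κ ≤ 1 := by rw [hκ]; exact min_le_left _ _
  have hκq : Real.sqrt κ ≤ q := by
    rw [Real.sqrt_le_left hqp.le, hκ]
    exact min_le_right _ _
  refine ⟨κ, hκp, ?_⟩
  filter_upwards [hHIT, hE1, hE2, eventually_ge_atTop 2] with N hHIT hE1 hE2 hN V hV hadm
  have hlog : 0 < Real.log N := Real.log_pos (by exact_mod_cast (by omega : 1 < N))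
  have hNp : (0 : ℝ) < N := by exact_mod_cast (by omega : 0 < N)
  have kE1 := hE1 V hV
  have kE2 := hE2 V hV κ hκp hκ1
  obtain ⟨X, hX⟩ : ∃ X : ℝ, X = N / (Real.log N) ^ (T * K) := ⟨_, rfl⟩
  have hXp : 0 < X := by rw [hX]; positivity
  obtain ⟨P, hP⟩ : ∃ P : ℝ, P = (V.card : ℝ) ^ (T * K) := ⟨_, rfl⟩
  have hPp : 0 ≤ P := by rw [hP]; positivity
  have hXP : (N : ℝ) * (V.card / Real.log N) ^ (T * K) = X * P := by
    rw [hX, hP, div_pow]
    ring
  -- notation
  obtain ⟨Pf, hPf⟩ : ∃ Pf, Pf = Fintype.piFinset (fun _ : Fin T × Fin K => V) := ⟨_, rfl⟩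
  obtain ⟨b, hb⟩ : ∃ b : ℕ → ℝ, b = fun n : ℕ => (((range (⌊Real.log N⌋₊ + s + 1)).filter
      (fun j : ℕ => Rgh δ N (n - j))).card : ℝ) := ⟨_, rfl⟩
  obtain ⟨R, hR⟩ : ∃ R : (Fin T × Fin K → ℕ) → Finset ℕ, R = fun H =>
      (Icc (N / 18) (2 * N)).filter (fun n : ℕ => ∀ x, Rgh δ N (n + H x)) := ⟨_, rfl⟩
  obtain ⟨Wf, hWf⟩ : ∃ Wf : (Fin T × Fin K → ℕ) → ℝ, Wf = fun H => ∑ n ∈ R H, b n ^ 2 :=
    ⟨_, rfl⟩
  obtain ⟨Q, hQ⟩ : ∃ Q : (Fin (k + 1) → Fin T × Fin K) → (Fin T × Fin K → ℕ) → ℝ,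
      Q = fun π H => (((Icc (N / 18) (2 * N)).filter (fun n : ℕ =>
        (∀ x, Rgh δ N (n + H x)) ∧ ∀ i, (n + H (π i)).Prime)).card : ℝ) := ⟨_, rfl⟩
  -- the first exceptional set
  obtain ⟨E1, hE1d⟩ : ∃ E1, E1 = Pf.filter (fun H => C3 * X < Wf H) := ⟨_, rfl⟩
  have hE1c : (E1.card : ℝ) ≤ δ' / 2 * P := by
    refine markov Pf E1 Wf (a := C3 * X) (by positivity) ?_ ?_ ?_ ?_
    · rw [hE1d]; exact filter_subset _ _
    · intro H _
      rw [hWf]
      exact sum_nonneg fun n _ => sq_nonneg _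
    · intro H hH
      rw [hE1d, mem_filter] at hH
      exact hH.2.le
    · have e1 : ∑ H ∈ Pf, Wf H ≤ C1 * N * (V.card / Real.log N) ^ (T * K) := by
        rw [hPf, hWf, hR, hb]
        convert kE1 using 4
      refine e1.trans (le_of_eq ?_)
      rw [mul_assoc, hXP, hC3]
      field_simp
  -- the second exceptional sets
  obtain ⟨E2, hE2d⟩ : ∃ E2 : (Fin (k + 1) → Fin T × Fin K) → Finset (Fin T × Fin K → ℕ),
      E2 = fun π => (Pf.filter (fun H => Function.Injective H ∧ ¬ Gu κ N (fun i => H (π i)))).filter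
        (fun H => c4 * X ≤ Q π H) := ⟨_, rfl⟩
  have hE2c : ∀ π, Function.Injective π → ((E2 π).card : ℝ) ≤
      δ' / (2 * ((T * K : ℕ) : ℝ) ^ (k + 1)) * P := by
    intro π hπ
    refine markov (Pf.filter (fun H => Function.Injective H ∧ ¬ Gu κ N (fun i => H (π i)))) (E2 π) (Q π)
      (a := c4 * X) (by positivity) ?_ ?_ ?_ ?_
    · rw [hE2d]; exact filter_subset _ _
    · intro H _
      rw [hQ]
      exact Nat.cast_nonneg _
    · intro H hH
      rw [hE2d] at hH
      exact (mem_filter.1 hH).2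
    · have e1 : ∑ H ∈ Pf.filter (fun H => Function.Injective H ∧ ¬ Gu κ N (fun i => H (π i))), Q π H ≤
          C2 * Real.sqrt κ * N * (V.card / Real.log N) ^ (T * K) := by
        rw [hPf, hQ]
        convert kE2 π hπ using 4
      refine e1.trans ?_
      have e2 : C2 * Real.sqrt κ * N * (V.card / Real.log N) ^ (T * K) =
          C2 * Real.sqrt κ * (X * P) := by
        rw [mul_assoc, hXP]
      rw [e2]
      calc C2 * Real.sqrt κ * (X * P) ≤ C2 * q * (X * P) :=
            mul_le_mul_of_nonneg_right (mul_le_mul_of_nonneg_left hκq hC2.le)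
              (mul_nonneg hXp.le hPp)
        _ = c4 * X * (δ' / (2 * ((T * K : ℕ) : ℝ) ^ (k + 1)) * P) := by
            rw [hq]
            field_simp
  -- the failing configurations
  have hsub : (Fintype.piFinset (fun _ : Fin T × Fin K => V)).filter
      (fun H => Function.Injective H ∧
      ¬ ∃ (S : Finset (Fin T)) (σ : Fin T → Fin K), M + 1 ≤ S.card ∧
        ∀ F : Fin (k + 1) → ℕ, Function.Injective F → (∀ i, ∃ g ∈ S, F i = H (g, σ g)) →
          Gu κ N F) ⊆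
      E1 ∪ (univ.filter (fun π : Fin (k + 1) → Fin T × Fin K => Function.Injective π)).biUnion
        E2 := by
    intro H hH
    rw [mem_filter] at hH
    obtain ⟨hHP, hHi, hbad⟩ := hH
    rw [← hPf] at hHP
    by_contra hcon
    rw [mem_union, not_or] at hcon
    obtain ⟨hn1, hn2⟩ := hcon
    have hW : Wf H ≤ C3 * X := by
      by_contra h
      apply hn1
      rw [hE1d, mem_filter]
      exact ⟨hHP, not_le.1 h⟩
    have hHr : ∀ x, H x ∈ V := by
      intro x
      rw [hPf, Fintype.mem_piFinset] at hHP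
      exact hHP x
    obtain ⟨S, σ, hS, hsum⟩ := hHIT H hHi (fun x => hV.2.1 _ (hHr x)) (fun p hp hpT => by
      obtain ⟨r, hr⟩ := hadm p hp hpT
      exact ⟨r, fun x => hr _ (hHr x)⟩)
    obtain ⟨G, hG⟩ : ∃ G, G = (Icc (N / 18) (2 * N)).filter
        (fun n : ℕ => (∀ x, Rgh δ N (n + H x)) ∧
            ∀ g ∈ S, (n + H (g, σ g)).Prime) := ⟨_, rfl⟩
    have hsum' : c * X ≤ ∑ n ∈ G, b n := by
      rw [hX, hG, hb]
      convert hsum using 3
    have hGR : G ⊆ R H := by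
      rw [hG, hR]
      intro n hn
      rw [mem_filter] at hn ⊢
      exact ⟨hn.1, hn.2.1⟩
    have hGc : c4 * X ≤ (G.card : ℝ) := by
      have e1 : (∑ n ∈ G, b n) ^ 2 ≤ G.card * ∑ n ∈ G, b n ^ 2 := sq_sum_le_card_mul_sum_sq
      have e2 : ∑ n ∈ G, b n ^ 2 ≤ Wf H := by
        rw [hWf]
        exact sum_le_sum_of_subset_of_nonneg hGR fun n _ _ => sq_nonneg _
      have e3 : (c * X) ^ 2 ≤ (∑ n ∈ G, b n) ^ 2 :=
        pow_le_pow_left₀ (by positivity) hsum' 2
      have e4 : (c * X) ^ 2 ≤ G.card * (C3 * X) :=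
        e3.trans (e1.trans (mul_le_mul_of_nonneg_left (e2.trans hW) (Nat.cast_nonneg _)))
      rw [hc4, div_mul_eq_mul_div, div_le_iff₀ hC3p]
      have e5 : X * (c ^ 2 * X) ≤ X * (G.card * C3) := by nlinarith
      exact le_of_mul_le_mul_left e5 hXp
    apply hbad
    refine ⟨S, σ, hS, fun F hF hFS => ?_⟩
    choose g hg hFg using hFS
    by_contra hGd
    apply hn2
    rw [mem_biUnion]
    refine ⟨fun i => (g i, σ (g i)), ?_, ?_⟩
    · rw [mem_filter]
      refine ⟨mem_univ _, fun i j hij => hF ?_⟩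
      rw [hFg i, hFg j]
      exact congrArg H hij
    · have hFe : (fun i => H (g i, σ (g i))) = F := by
        funext i
        exact (hFg i).symm
      rw [hE2d]
      refine mem_filter.2 ⟨mem_filter.2 ⟨hHP, hHi, ?_⟩, ?_⟩
      · show ¬ Gu κ N (fun i => H (g i, σ (g i)))
        rw [hFe]
        exact hGd
      · refine hGc.trans ?_
        rw [hQ]
        have : G ⊆ (Icc (N / 18) (2 * N)).filter (fun n : ℕ =>
            (∀ x, Rgh δ N (n + H x)) ∧ ∀ i, (n + H (g i, σ (g i))).Prime) := by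
          intro n hn
          rw [hG, mem_filter] at hn
          rw [mem_filter]
          exact ⟨hn.1, hn.2.1, fun i => hn.2.2 (g i) (hg i)⟩
        exact Nat.cast_le.2 (card_le_card this)
  -- conclusion
  have hcard : ((E1 ∪ (univ.filter (fun π : Fin (k + 1) → Fin T × Fin K =>
      Function.Injective π)).biUnion E2).card : ℝ) ≤ δ' * (V.card : ℝ) ^ (T * K) := by
    have e1 : ((E1 ∪ (univ.filter (fun π : Fin (k + 1) → Fin T × Fin K =>
        Function.Injective π)).biUnion E2).card : ℝ) ≤ (E1.card : ℝ) +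
        ∑ π ∈ univ.filter (fun π : Fin (k + 1) → Fin T × Fin K => Function.Injective π),
          ((E2 π).card : ℝ) := by
      have := (card_union_le E1 ((univ.filter (fun π : Fin (k + 1) → Fin T × Fin K =>
        Function.Injective π)).biUnion E2)).trans (Nat.add_le_add_left card_biUnion_le _)
      exact_mod_cast this
    have e2 : ∑ π ∈ univ.filter (fun π : Fin (k + 1) → Fin T × Fin K => Function.Injective π),
        ((E2 π).card : ℝ) ≤ δ' / 2 * P := by
      have e3 : ∑ π ∈ univ.filter (fun π : Fin (k + 1) → Fin T × Fin K => Function.Injective π),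
          ((E2 π).card : ℝ) ≤ ∑ π ∈ univ.filter (fun π : Fin (k + 1) → Fin T × Fin K =>
            Function.Injective π), δ' / (2 * ((T * K : ℕ) : ℝ) ^ (k + 1)) * P :=
        sum_le_sum fun π hπ => hE2c π (mem_filter.1 hπ).2
      refine e3.trans ?_
      rw [sum_const, nsmul_eq_mul]
      have e4 : ((univ.filter (fun π : Fin (k + 1) → Fin T × Fin K =>
          Function.Injective π)).card : ℝ) ≤ ((T * K : ℕ) : ℝ) ^ (k + 1) := by
        have e5 : (univ.filter (fun π : Fin (k + 1) → Fin T × Fin K =>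
            Function.Injective π)).card ≤ (T * K) ^ (k + 1) := by
          refine (card_filter_le _ _).trans ?_
          rw [card_univ, Fintype.card_fun, Fintype.card_prod, Fintype.card_fin, Fintype.card_fin,
            Fintype.card_fin]
        exact_mod_cast e5
      calc _ ≤ ((T * K : ℕ) : ℝ) ^ (k + 1) * (δ' / (2 * ((T * K : ℕ) : ℝ) ^ (k + 1)) * P) :=
            mul_le_mul_of_nonneg_right e4 (by positivity)
        _ = δ' / 2 * P := by field_simp
    rw [← hP]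
    linarith
  refine le_trans ?_ hcard
  exact_mod_cast card_le_card hsub

end Pool.Agent.K9h13.FH
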