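import Pool.Agent.K9h13.FE.Fin
import Pool.Agent.K9h13.FH.E2
import Pool.Agent.K9h13.FH.Hitm

/-! # Assembly -/

set_option autoImplicit false

namespace Pool.Agent.K9h13.FH

open Finset Filter

theorem tHITM (k : ℕ) : T_HITM k :=
  hitm Pool.Agent.K9h13.FE.Hit.main (e1 Pool.Agent.N592.RQ.main Pool.Agent.K9h13.FE.sBB) k
    (e2 Pool.Agent.N592.RQ.main k)

end Pool.Agent.K9h13.FH
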