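import Pool.Agent.K9h13.FH.St
import Pool.Agent.K9h13.FE.E2
import Pool.Agent.H387R2.U2

/-! # The singular series is bounded for most tuples of a log-thick set -/

set_option autoImplicit false

namespace Pool.Agent.K9h13.FH

open Finset Filter Topology Pool.Agent.H387R2 Pool.Agent.H386R2.HL
open Pool.Agent.K9h13.FE (ext_count)

/-- the sum of `1 / p` over the prime factors -/
noncomputable def gg1 (n : ℕ) : ℝ := ∑ p ∈ n.primeFactors, 1 / (p : ℝ)

lemma gg1_nonneg (n : ℕ) : 0 ≤ gg1 n := sum_nonneg fun _ _ => by positivity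

lemma tt0_le (n : ℕ) : tt 0 n ≤ Real.exp (2 * gg1 n) := by
  unfold tt gg1
  rw [mul_sum, Real.exp_sum]
  have e : n.primeFactors.filter (fun p => 0 < p) = n.primeFactors :=
    filter_true_of_mem (fun p hp => (Nat.prime_of_mem_primeFactors hp).pos)
  rw [e]
  apply Finset.prod_le_prod
  · intro p hp
    exact zero_le_one.trans (one_le_inv (Nat.prime_of_mem_primeFactors hp))
  · intro p hp
    have hp1 := Nat.prime_of_mem_primeFactors hp
    have hp0 : (0:ℝ) < p := by exact_mod_cast hp1.pos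
    have hp2 : (2:ℝ) ≤ p := by exact_mod_cast hp1.two_le
    have a1 : (1 - 1 / (p : ℝ))⁻¹ ≤ 1 + 2 / p := by
      have a2 : 1 - 1 / (p : ℝ) = (p - 1) / p := by field_simp
      rw [a2, inv_div, div_le_iff₀ (by linarith)]
      have : (1 + 2 / (p:ℝ)) * (p - 1) = p + 1 - 2 / p := by field_simp; ring
      rw [this]
      have : 2 / (p:ℝ) ≤ 1 := by rw [div_le_one hp0]; exact hp2
      linarith
    have a4 := Real.add_one_le_exp (2 / (p:ℝ))
    have a5 : 2 * (1 / (p:ℝ)) = 2 / p := by ring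
    rw [a5]
    linarith

lemma CT_bd (T : Finset ℕ) (Φ : ℝ) (hΦ : 0 ≤ Φ) (h : ∀ a ∈ T, ∀ b ∈ T, a < b → gg1 (b - a) ≤ Φ) :
    Uni.CT T ≤ Real.exp (2 * Φ) ^ (T.card * T.card) := by
  rw [← Uni.CT_en]
  refine (singularSeries_le (Uni.en T) (Uni.en_inj T) 0).trans ?_
  have e : sy (Uni.en T) 0 = 1 := by
    unfold sy
    have : (0 + 1).primesBelow = ∅ := by decide
    rw [this, prod_empty]
  rw [e, one_mul]
  calc ∏ q ∈ prs T.card, tt 0 (Nat.dist (Uni.en T q.1) (Uni.en T q.2)) ≤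
      ∏ _q ∈ prs T.card, Real.exp (2 * Φ) := by
        apply Finset.prod_le_prod
        · intro q _
          exact zero_le_one.trans (one_le_tt _ _)
        · intro q hq
          have hq' : q.1 < q.2 := (mem_filter.1 hq).2
          have h1 : Uni.en T q.1 < Uni.en T q.2 := (T.orderEmbOfFin rfl).strictMono hq'
          rw [Nat.dist_eq_sub_of_le h1.le]
          refine (tt0_le _).trans (Real.exp_le_exp.2 ?_)
          have := h _ (Uni.en_mem T q.1) _ (Uni.en_mem T q.2) h1
          linarith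
    _ = Real.exp (2 * Φ) ^ (prs T.card).card := by rw [prod_const]
    _ ≤ _ := pow_le_pow_right₀ (Real.one_le_exp (by positivity)) (Uni.card_prs_le _)

/-- multiples in an interval -/
lemma mult_le (n X L : ℕ) (hn : 0 < n) :
    (((Icc (X + 1) (X + L)).filter (fun d => n ∣ d)).card : ℝ) ≤ (L : ℝ) / n + 1 := by
  have h1 : ((Icc (X + 1) (X + L)).filter (fun d => n ∣ d)).card ≤ (Ioc (X / n) ((X + L) / n)).card := by
    apply card_le_card_of_injOn (fun d => d / n)
    · intro d hd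
      rw [mem_coe, mem_filter, mem_Icc] at hd
      obtain ⟨⟨h1, h2⟩, e, rfl⟩ := hd
      rw [mem_coe, mem_Ioc]
      show X / n < n * e / n ∧ n * e / n ≤ (X + L) / n
      rw [Nat.mul_div_cancel_left _ hn]
      constructor
      · rw [Nat.div_lt_iff_lt_mul hn]
        rw [Nat.mul_comm]
        omega
      · rw [Nat.le_div_iff_mul_le hn, Nat.mul_comm]
        exact h2
    · intro d hd d' hd' h
      rw [mem_coe, mem_filter] at hd hd'
      have e : d / n = d' / n := h
      rw [← Nat.div_mul_cancel hd.2, ← Nat.div_mul_cancel hd'.2, e]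
  rw [Nat.card_Ioc] at h1
  have h2 : (X + L) / n ≤ X / n + L / n + 1 := by
    rw [Nat.add_div hn]
    split_ifs <;> omega
  have h3 : ((Icc (X + 1) (X + L)).filter (fun d => n ∣ d)).card ≤ L / n + 1 := by
    refine h1.trans ?_
    rw [Nat.sub_le_iff_le_add]
    linarith
  have h4 : (((L / n : ℕ) : ℝ)) ≤ (L : ℝ) / n := Nat.cast_div_le
  have h5 : ((((Icc (X + 1) (X + L)).filter (fun d => n ∣ d)).card : ℕ) : ℝ) ≤ ((L / n + 1 : ℕ) : ℝ) := by
    exact_mod_cast h3
  push_cast at h5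
  linarith

lemma sum_inv_sq (L : ℕ) (hL : 1 ≤ L) : ∑ n ∈ Icc 2 L, (1 / (n : ℝ)) * (1 / n) ≤ 1 - 1 / L := by
  induction L, hL using Nat.le_induction with
  | base => simp
  | succ L hL ih =>
    rw [Finset.sum_Icc_succ_top (by omega)]
    have hL0 : (0 : ℝ) < L := by exact_mod_cast hL
    have h1 : 1 / ((L + 1 : ℕ) : ℝ) * (1 / ((L + 1 : ℕ) : ℝ)) ≤ 1 / L - 1 / ((L + 1 : ℕ) : ℝ) := by
      push_cast
      rw [div_sub_div _ _ hL0.ne' (by positivity), div_mul_div_comm, div_le_div_iff₀ (by positivity) (by positivity)]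
      nlinarith
    linarith

lemma card_pf (d L : ℕ) (hd : 1 ≤ d) (h : Real.log d ≤ L) : (d.primeFactors.card : ℝ) ≤ 2 * L := by
  have h1 : 2 ^ d.primeFactors.card ≤ d := by
    calc 2 ^ d.primeFactors.card = ∏ _p ∈ d.primeFactors, 2 := by rw [prod_const]
      _ ≤ ∏ p ∈ d.primeFactors, p := prod_le_prod' fun p hp => (Nat.prime_of_mem_primeFactors hp).two_le
      _ ≤ d := Nat.le_of_dvd (by omega) (Nat.prod_primeFactors_dvd d)
  have h2 : (d.primeFactors.card : ℝ) * Real.log 2 ≤ Real.log d := by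
    rw [← Real.log_pow]
    apply Real.log_le_log (by positivity)
    exact_mod_cast h1
  have h3 := Real.log_two_gt_d9
  have h4 : (0 : ℝ) ≤ d.primeFactors.card := Nat.cast_nonneg _
  nlinarith

lemma sum_gg1 (L X M : ℕ) (hL : 1 ≤ L) (hM : X + L ≤ M) (hlog : Real.log M ≤ L) :
    ∑ d ∈ Icc (X + 1) (X + L), gg1 d ≤ 5 * L := by
  have hL0 : (0 : ℝ) < L := by exact_mod_cast hL
  have h1 : ∀ d ∈ Icc (X + 1) (X + L), gg1 d ≤
      ∑ n ∈ Icc 2 L, (if n ∣ d then 1 / (n : ℝ) else 0) + 2 := by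
    intro d hd
    rw [mem_Icc] at hd
    have hd1 : 1 ≤ d := by omega
    unfold gg1
    rw [← sum_filter_add_sum_filter_not d.primeFactors (fun p => p ≤ L)]
    apply add_le_add
    · rw [← sum_filter]
      apply sum_le_sum_of_subset_of_nonneg
      · intro p hp
        rw [mem_filter] at hp
        rw [mem_filter, mem_Icc]
        have hp1 := Nat.prime_of_mem_primeFactors hp.1
        exact ⟨⟨hp1.two_le, hp.2⟩, Nat.dvd_of_mem_primeFactors hp.1⟩
      · intro p _ _
        positivity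
    · have h2 : ∀ p ∈ d.primeFactors.filter (fun p => ¬ p ≤ L), 1 / (p : ℝ) ≤ 1 / L := by
        intro p hp
        rw [mem_filter] at hp
        apply one_div_le_one_div_of_le hL0
        exact_mod_cast (not_le.1 hp.2).le
      refine (sum_le_sum h2).trans ?_
      rw [sum_const, nsmul_eq_mul]
      have h3 : ((d.primeFactors.filter (fun p => ¬ p ≤ L)).card : ℝ) ≤ d.primeFactors.card := by
        exact_mod_cast card_filter_le _ _
      have h4 : Real.log d ≤ L := by
        refine le_trans (Real.log_le_log (by exact_mod_cast hd1) ?_) hlog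
        exact_mod_cast hd.2.trans hM
      have h5 := card_pf d L hd1 h4
      rw [mul_one_div, div_le_iff₀ hL0]
      linarith
  refine (sum_le_sum h1).trans ?_
  rw [sum_add_distrib, sum_comm, sum_const, nsmul_eq_mul, Nat.card_Icc]
  have h6 : ∀ n ∈ Icc 2 L, ∑ d ∈ Icc (X + 1) (X + L), (if n ∣ d then 1 / (n : ℝ) else 0) ≤
      L * (1 / (n : ℝ) * (1 / n)) + 1 := by
    intro n hn
    rw [mem_Icc] at hn
    have hn0 : (0 : ℝ) < n := by exact_mod_cast (by omega : 0 < n)
    have hn1 : (1 : ℝ) ≤ n := by exact_mod_cast (by omega : 1 ≤ n)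
    rw [← sum_filter, sum_const, nsmul_eq_mul]
    have h7 := mult_le n X L (by omega)
    calc (((Icc (X + 1) (X + L)).filter (fun d => n ∣ d)).card : ℝ) * (1 / (n : ℝ)) ≤
        ((L : ℝ) / n + 1) * (1 / n) := mul_le_mul_of_nonneg_right h7 (by positivity)
      _ = L * (1 / (n : ℝ) * (1 / n)) + 1 / n := by ring
      _ ≤ _ := by
          have : 1 / (n : ℝ) ≤ 1 := by rw [div_le_one hn0]; exact hn1
          linarith
  have h8 : ∑ n ∈ Icc 2 L, ∑ d ∈ Icc (X + 1) (X + L), (if n ∣ d then 1 / (n : ℝ) else 0) ≤ 2 * L := by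
    refine (sum_le_sum h6).trans ?_
    rw [sum_add_distrib, ← mul_sum, sum_const, nsmul_eq_mul, mul_one, Nat.card_Icc]
    have h9 := sum_inv_sq L hL
    have h10 : (0 : ℝ) ≤ 1 / L := by positivity
    have h11 : ((L + 1 - 2 : ℕ) : ℝ) ≤ L := by exact_mod_cast (by omega : L + 1 - 2 ≤ L)
    nlinarith
  have h12 : X + L + 1 - (X + 1) = L := by omega
  rw [h12]
  linarith

open Classical in
lemma blkbad (L M a j : ℕ) (hL : 1 ≤ L) (hM : j * L + L ≤ M) (hlog : Real.log M ≤ L) (Φ : ℝ) (hΦ : 0 ≤ Φ) :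
    (((Ico (j * L) (j * L + L)).filter (fun b => a < b ∧ Φ < gg1 (b - a))).card : ℝ) * Φ ≤ 5 * L := by
  obtain ⟨X, hX⟩ : ∃ X, X = j * L - a - 1 := ⟨_, rfl⟩
  have h1 : ((Ico (j * L) (j * L + L)).filter (fun b => a < b ∧ Φ < gg1 (b - a))).card ≤
      ((Icc (X + 1) (X + L)).filter (fun d => Φ < gg1 d)).card := by
    apply card_le_card_of_injOn (fun b => b - a)
    · intro b hb
      rw [mem_coe, mem_filter, mem_Ico] at hb
      rw [mem_coe, mem_filter, mem_Icc]
      obtain ⟨⟨h1, h2⟩, h3, h4⟩ := hb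
      refine ⟨?_, h4⟩
      show X + 1 ≤ b - a ∧ b - a ≤ X + L
      omega
    · intro b hb b' hb' h
      rw [mem_coe, mem_filter] at hb hb'
      have e : b - a = b' - a := h
      have h3 := hb.2.1
      have h4 := hb'.2.1
      omega
  have h2 : (((Icc (X + 1) (X + L)).filter (fun d => Φ < gg1 d)).card : ℝ) * Φ ≤
      ∑ d ∈ (Icc (X + 1) (X + L)).filter (fun d => Φ < gg1 d), gg1 d := by
    rw [← nsmul_eq_mul]
    exact card_nsmul_le_sum _ _ _ fun d hd => (mem_filter.1 hd).2.le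
  have h3 : ∑ d ∈ (Icc (X + 1) (X + L)).filter (fun d => Φ < gg1 d), gg1 d ≤
      ∑ d ∈ Icc (X + 1) (X + L), gg1 d :=
    sum_le_sum_of_subset_of_nonneg (filter_subset _ _) fun d _ _ => gg1_nonneg d
  have h4 := sum_gg1 L X M hL (by omega) hlog
  have h5 : (((Ico (j * L) (j * L + L)).filter (fun b => a < b ∧ Φ < gg1 (b - a))).card : ℝ) ≤
      (((Icc (X + 1) (X + L)).filter (fun d => Φ < gg1 d)).card : ℝ) := by exact_mod_cast h1
  have h6 := mul_le_mul_of_nonneg_right h5 hΦ
  linarith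

open Classical in
/-- the bad pairs -/
noncomputable def bad (Φ : ℝ) (V : Finset ℕ) : Finset (ℕ × ℕ) :=
  (V ×ˢ V).filter (fun q => q.1 < q.2 ∧ Φ < gg1 (q.2 - q.1))

open Classical in
lemma bad_le (N : ℕ) (hN : 1 ≤ N) (hLN : 2 * (⌊Real.log N⌋₊ + 1) ≤ N) (V : Finset ℕ) (hV : ∀ v ∈ V, 2 * v ≤ N)
    (Φ : ℝ) (hΦ : 0 ≤ Φ) :
    ((bad Φ V).card : ℝ) * Φ ≤ V.card * (nb N V * (5 * ((⌊Real.log N⌋₊ + 1 : ℕ) : ℝ))) := by
  obtain ⟨L, hL⟩ : ∃ L, L = ⌊Real.log N⌋₊ + 1 := ⟨_, rfl⟩
  have hlog : Real.log N ≤ L := by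
    rw [hL]
    push_cast
    exact (Nat.lt_floor_add_one _).le
  rw [← hL] at hLN ⊢
  obtain ⟨J, hJ⟩ : ∃ J, J = V.image (fun v => v / L) := ⟨_, rfl⟩
  have hnb : nb N V = J.card := by rw [hJ, hL]; rfl
  rw [hnb]
  have h1 : ∀ a ∈ V, ((V.filter (fun b => a < b ∧ Φ < gg1 (b - a))).card : ℝ) * Φ ≤ J.card * (5 * (L : ℝ)) := by
    intro a _
    have h2 : (V.filter (fun b => a < b ∧ Φ < gg1 (b - a))).card ≤
        ∑ j ∈ J, ((Ico (j * L) (j * L + L)).filter (fun b => a < b ∧ Φ < gg1 (b - a))).card := by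
      have h3 : V.filter (fun b => a < b ∧ Φ < gg1 (b - a)) ⊆
          J.biUnion (fun j => (Ico (j * L) (j * L + L)).filter (fun b => a < b ∧ Φ < gg1 (b - a))) := by
        intro b hb
        rw [mem_filter] at hb
        rw [mem_biUnion]
        refine ⟨b / L, by rw [hJ]; exact mem_image_of_mem _ hb.1, ?_⟩
        rw [mem_filter, mem_Ico]
        refine ⟨⟨Nat.div_mul_le_self b L, ?_⟩, hb.2⟩
        have h4 := Nat.lt_div_mul_add (a := b) (b := L) (by omega)
        exact h4
      exact (card_le_card h3).trans card_biUnion_le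
    have h5 : ((V.filter (fun b => a < b ∧ Φ < gg1 (b - a))).card : ℝ) ≤
        ∑ j ∈ J, (((Ico (j * L) (j * L + L)).filter (fun b => a < b ∧ Φ < gg1 (b - a))).card : ℝ) := by
      exact_mod_cast h2
    calc ((V.filter (fun b => a < b ∧ Φ < gg1 (b - a))).card : ℝ) * Φ ≤
        (∑ j ∈ J, (((Ico (j * L) (j * L + L)).filter (fun b => a < b ∧ Φ < gg1 (b - a))).card : ℝ)) * Φ :=
          mul_le_mul_of_nonneg_right h5 hΦ
      _ = ∑ j ∈ J, (((Ico (j * L) (j * L + L)).filter (fun b => a < b ∧ Φ < gg1 (b - a))).card : ℝ) * Φ := by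
          rw [sum_mul]
      _ ≤ ∑ _j ∈ J, 5 * (L : ℝ) := by
          apply sum_le_sum
          intro j hj
          rw [hJ, mem_image] at hj
          obtain ⟨v, hv, hvj⟩ := hj
          have h6 : j * L ≤ v := by rw [← hvj]; exact Nat.div_mul_le_self v L
          have h7 := hV v hv
          exact blkbad L N a j (by omega) (by omega) hlog Φ hΦ
      _ = J.card * (5 * (L : ℝ)) := by rw [sum_const, nsmul_eq_mul]
  have h8 : ((bad Φ V).card : ℝ) = ∑ a ∈ V, ((V.filter (fun b => a < b ∧ Φ < gg1 (b - a))).card : ℝ) := by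
    have h9 : (bad Φ V).card = ∑ a ∈ V, (V.filter (fun b => a < b ∧ Φ < gg1 (b - a))).card := by
      unfold bad
      simp only [card_filter]
      rw [sum_product]
    exact_mod_cast h9
  rw [h8, sum_mul]
  refine (sum_le_sum h1).trans (le_of_eq ?_)
  rw [sum_const, nsmul_eq_mul]

open Classical in
/-- **The singular series is bounded for most tuples.** -/
theorem ssT (s : ℕ) (c₀ ε : ℝ) (hc₀ : 0 < c₀) (hε : 0 < ε) : ∃ C₁ : ℝ, 0 < C₁ ∧ ∀ᶠ N : ℕ in atTop,
    ∀ V : Finset ℕ, Thk c₀ N V →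
      (((Fintype.piFinset (fun _ : Fin (s + 1) => V)).filter (fun F : Fin (s + 1) → ℕ =>
        Function.Injective F ∧ C₁ < Uni.CT (univ.image F))).card : ℝ) ≤ ε * (V.card : ℝ) ^ (s + 1) := by
  obtain ⟨Φ, hΦ⟩ : ∃ Φ : ℝ, Φ = 10 * ((s : ℝ) + 1) ^ 2 / (c₀ * ε) := ⟨_, rfl⟩
  have hΦ0 : 0 < Φ := by rw [hΦ]; positivity
  refine ⟨Real.exp (2 * Φ) ^ ((s + 1) * (s + 1)), by positivity, ?_⟩
  have hlo : ∀ᶠ N : ℕ in atTop, Real.log (N : ℝ) ≤ (N : ℝ) / 4 := by
    have h1 := (Real.isLittleO_log_id_atTop.def (show (0 : ℝ) < 1 / 4 by norm_num))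
    have h2 := tendsto_natCast_atTop_atTop.eventually h1
    filter_upwards [h2, eventually_ge_atTop 1] with x hx1 hx2
    have hxR : (1 : ℝ) ≤ x := by exact_mod_cast hx2
    simp only [id_eq, Real.norm_eq_abs, abs_of_nonneg (Real.log_nonneg hxR),
      abs_of_nonneg (show (0 : ℝ) ≤ x by linarith)] at hx1
    linarith
  filter_upwards [hlo, eventually_ge_atTop 100] with N hlo hN V hV
  obtain ⟨hVne, hV2, hVc⟩ := hV
  have hNR : (100 : ℝ) ≤ N := by exact_mod_cast hN
  have hlog1 : 1 ≤ Real.log N := by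
    rw [Real.le_log_iff_exp_le (by linarith)]
    have := Real.exp_one_lt_d9
    linarith
  obtain ⟨L, hL⟩ : ∃ L, L = ⌊Real.log N⌋₊ + 1 := ⟨_, rfl⟩
  have hL1 : (L : ℝ) ≤ Real.log N + 1 := by
    rw [hL]
    push_cast
    have := Nat.floor_le (show 0 ≤ Real.log N by linarith)
    linarith
  have hLN : 2 * L ≤ N := by
    have : (2 * (L : ℝ)) ≤ N := by linarith
    exact_mod_cast this
  have hb := bad_le N (by omega) (by rw [← hL]; exact hLN) V hV2 Φ hΦ0.le
  rw [← hL] at hb
  have hVp : (0 : ℝ) < V.card := by exact_mod_cast hVne.card_pos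
  have hbad : ((bad Φ V).card : ℝ) * Φ ≤ V.card * (10 / c₀ * V.card) := by
    refine hb.trans ?_
    apply mul_le_mul_of_nonneg_left _ hVp.le
    have h1 : (nb N V : ℝ) * Real.log N ≤ V.card / c₀ := by
      rw [le_div_iff₀ hc₀]
      linarith
    have h0 : (0 : ℝ) ≤ nb N V := Nat.cast_nonneg _
    calc (nb N V : ℝ) * (5 * (L : ℝ)) ≤ nb N V * (5 * (2 * Real.log N)) := by
          apply mul_le_mul_of_nonneg_left _ h0
          linarith
      _ = 10 * (nb N V * Real.log N) := by ring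
      _ ≤ 10 * (V.card / c₀) := by linarith
      _ = _ := by ring
  have hbad2 : ((bad Φ V).card : ℝ) ≤ ε / ((s : ℝ) + 1) ^ 2 * (V.card : ℝ) ^ 2 := by
    rw [← mul_le_mul_iff_left₀ hΦ0]
    refine hbad.trans (le_of_eq ?_)
    rw [hΦ]
    field_simp
  -- the union bound
  obtain ⟨P, hP⟩ : ∃ P : Finset (Fin (s + 1) × Fin (s + 1)), P = univ.filter (fun q => q.1 ≠ q.2) := ⟨_, rfl⟩
  have hsub : (Fintype.piFinset (fun _ : Fin (s + 1) => V)).filter (fun F : Fin (s + 1) → ℕ =>
        Function.Injective F ∧ Real.exp (2 * Φ) ^ ((s + 1) * (s + 1)) < Uni.CT (univ.image F)) ⊆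
      P.biUnion (fun q => (Fintype.piFinset (fun _ : Fin (s + 1) => V)).filter
        (fun F : Fin (s + 1) → ℕ => (F q.1, F q.2) ∈ bad Φ V)) := by
    intro F hF
    rw [mem_filter] at hF
    obtain ⟨hFV, hFi, hFC⟩ := hF
    have hcard : (univ.image F).card = s + 1 := by
      rw [card_image_of_injective _ hFi, card_univ, Fintype.card_fin]
    by_contra hcon
    have h1 : Uni.CT (univ.image F) ≤ Real.exp (2 * Φ) ^ ((univ.image F).card * (univ.image F).card) := by
      apply CT_bd _ Φ hΦ0.le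
      intro a ha b hb hab
      by_contra hg
      apply hcon
      obtain ⟨i, _, hi⟩ := mem_image.1 ha
      obtain ⟨j, _, hj⟩ := mem_image.1 hb
      rw [mem_biUnion]
      refine ⟨(i, j), ?_, ?_⟩
      · rw [hP, mem_filter]
        refine ⟨mem_univ _, fun hij => ?_⟩
        have h2 : i = j := hij
        rw [← hi, ← hj, h2] at hab
        exact lt_irrefl _ hab
      · rw [mem_filter]
        refine ⟨hFV, ?_⟩
        rw [Fintype.mem_piFinset] at hFV
        unfold bad
        rw [mem_filter, mem_product]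
        refine ⟨⟨hFV i, hFV j⟩, ?_, ?_⟩
        · show F i < F j
          rw [hi, hj]
          exact hab
        · show Φ < gg1 (F j - F i)
          rw [hi, hj]
          exact not_le.1 hg
    rw [hcard] at h1
    linarith
  have hone : ∀ q ∈ P, ((Fintype.piFinset (fun _ : Fin (s + 1) => V)).filter
        (fun F : Fin (s + 1) → ℕ => (F q.1, F q.2) ∈ bad Φ V)).card ≤ V.card ^ (s + 1 - 2) * (bad Φ V).card := by
    intro q hq
    rw [hP, mem_filter] at hq
    obtain ⟨π, hπ⟩ : ∃ π : Fin (1 + 1) → Fin (s + 1), π = ![q.1, q.2] := ⟨_, rfl⟩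
    have hπi : Function.Injective π := by
      intro u v huv
      rw [hπ] at huv
      fin_cases u <;> fin_cases v <;> simp_all
    refine (card_le_mul_card_image (f := fun F => fun t => F (π t)) _ (V.card ^ (s + 1 - 2)) ?_).trans
      (Nat.mul_le_mul_left _ ?_)
    · intro F' _
      have h4 := ext_count π hπi V F'
      rw [Fintype.card_fin] at h4
      refine le_trans (card_le_card ?_) h4
      intro F hF
      rw [mem_filter, mem_filter] at hF
      rw [mem_filter]
      exact ⟨hF.1.1, hF.2⟩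
    · have h5 : (((Fintype.piFinset (fun _ : Fin (s + 1) => V)).filter
          (fun F : Fin (s + 1) → ℕ => (F q.1, F q.2) ∈ bad Φ V)).image (fun F => fun t => F (π t))) ⊆
          (bad Φ V).image (fun w => (![w.1, w.2] : Fin (1 + 1) → ℕ)) := by
        intro G hG
        obtain ⟨F, hF, rfl⟩ := mem_image.1 hG
        rw [mem_image]
        refine ⟨(F q.1, F q.2), (mem_filter.1 hF).2, ?_⟩
        funext t
        rw [hπ]
        fin_cases t <;> rfl
      exact (card_le_card h5).trans card_image_le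
  have hPc : P.card ≤ (s + 1) ^ 2 := by
    rw [hP]
    refine (card_filter_le _ _).trans (le_of_eq ?_)
    rw [card_univ, Fintype.card_prod, Fintype.card_fin, sq]
  have htot : ((Fintype.piFinset (fun _ : Fin (s + 1) => V)).filter (fun F : Fin (s + 1) → ℕ =>
        Function.Injective F ∧ Real.exp (2 * Φ) ^ ((s + 1) * (s + 1)) < Uni.CT (univ.image F))).card ≤
      P.card * (V.card ^ (s + 1 - 2) * (bad Φ V).card) := by
    refine (card_le_card hsub).trans (card_biUnion_le.trans ?_)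
    refine (sum_le_sum hone).trans (le_of_eq ?_)
    rw [sum_const, smul_eq_mul]
  rcases Nat.eq_zero_or_pos s with hs | hs
  · have hP0 : P.card = 0 := by
      rw [hP, card_eq_zero, filter_eq_empty_iff]
      intro q _
      rw [not_not]
      apply Fin.ext
      have h8 := q.1.2
      have h9 := q.2.2
      omega
    rw [hP0, Nat.zero_mul, Nat.le_zero] at htot
    rw [htot]
    push_cast
    positivity
  · have h6 : ((((Fintype.piFinset (fun _ : Fin (s + 1) => V)).filter (fun F : Fin (s + 1) → ℕ =>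
        Function.Injective F ∧ Real.exp (2 * Φ) ^ ((s + 1) * (s + 1)) < Uni.CT (univ.image F))).card : ℕ) : ℝ) ≤
      ((P.card : ℕ) : ℝ) * ((V.card : ℝ) ^ (s + 1 - 2) * ((bad Φ V).card : ℝ)) := by exact_mod_cast htot
    have h7 : ((P.card : ℕ) : ℝ) ≤ ((s : ℝ) + 1) ^ 2 := by exact_mod_cast hPc
    refine h6.trans ?_
    calc ((P.card : ℕ) : ℝ) * ((V.card : ℝ) ^ (s + 1 - 2) * ((bad Φ V).card : ℝ)) ≤
        ((s : ℝ) + 1) ^ 2 * ((V.card : ℝ) ^ (s + 1 - 2) * (ε / ((s : ℝ) + 1) ^ 2 * (V.card : ℝ) ^ 2)) := by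
          apply mul_le_mul h7 _ (by positivity) (by positivity)
          exact mul_le_mul_of_nonneg_left hbad2 (by positivity)
      _ = ε * ((V.card : ℝ) ^ (s + 1 - 2) * (V.card : ℝ) ^ 2) := by
          field_simp
      _ = _ := by
          rw [← pow_add]
          congr 2
          omega

end Pool.Agent.K9h13.FH
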