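import Pool.Agent.K9h13.FH.Tup
import Pool.Agent.K9h13.FH.SS
import Pool.Agent.K9h13.FE.Mass

/-!
# The singular series of the tuples of the right order in a log-thick set
-/

set_option autoImplicit false

namespace Pool.Agent.K9h13.FH

open Finset Filter Topology Pool.Agent.H387R2
open Pool.Agent.N646.RO (S_BRM)
open Pool.Agent.Helper22K9.Trp (CT_ge' card_cop)
open Pool.Agent.K9h13.FE (cR pF pF_eq gdR sum_inj)

open Classical in
/-- **The mass of the tuples of the right order.** -/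
theorem massT (hBRM : S_BRM) (s : ℕ) (hH : T_HITM s) (ε : ℝ) (hε : 0 < ε) (c₁ : ℝ)
    (hc₁ : 0 < c₁) : ∃ κ : ℝ, 0 < κ ∧ ∀ᶠ N : ℕ in atTop, ∀ A : Finset ℕ, Thk c₁ N A →
    ((5 / 18) ^ s - ε) * (A.card : ℝ) ^ (s + 1) ≤ (s + 1).factorial * ∑ T ∈ gdR s κ N A, Uni.CT T := by
  obtain ⟨c, hc⟩ : ∃ c : ℝ, c = (5 / 18) ^ s := ⟨_, rfl⟩
  rw [← hc]
  have hc1 : c ≤ 1 := by rw [hc]; exact pow_le_one₀ (by norm_num) (by norm_num)
  have hc0 : 0 < c := by rw [hc]; positivity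
  obtain ⟨ε₁, hε₁⟩ : ∃ ε₁ : ℝ, ε₁ = min (ε / 4) (c / 4) := ⟨_, rfl⟩
  have hε₁0 : 0 < ε₁ := by rw [hε₁]; positivity
  have hε₁1 : ε₁ ≤ ε / 4 := by rw [hε₁]; exact min_le_left _ _
  have hε₁2 : ε₁ ≤ c / 4 := by rw [hε₁]; exact min_le_right _ _
  obtain ⟨z, hz⟩ := tupV hBRM s hH ε₁ hε₁0
  -- the modulus
  obtain ⟨y₁, hy₁⟩ := exists_nat_ge (((s + 1 : ℕ) : ℝ) ^ 2 / ε₁)
  obtain ⟨y, hy⟩ : ∃ y, y = max (max y₁ z) (s + 1) := ⟨_, rfl⟩
  have hyy₁ : y₁ ≤ y := by rw [hy]; exact (le_max_left _ _).trans (le_max_left _ _)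
  have hyK : z ≤ y := by rw [hy]; exact (le_max_right _ _).trans (le_max_left _ _)
  have hys : s + 1 ≤ y := by rw [hy]; exact le_max_right _ _
  have hy0 : (0 : ℝ) < y := by
    have : 0 < y := by omega
    exact_mod_cast this
  have hyε : ((s + 1 : ℕ) : ℝ) ^ 2 / y ≤ ε₁ := by
    rw [div_le_iff₀ hy0]
    rw [div_le_iff₀ hε₁0] at hy₁
    have : (y₁ : ℝ) ≤ y := by exact_mod_cast hyy₁
    nlinarith
  obtain ⟨W, hW⟩ : ∃ W, W = Uni.WW y := ⟨_, rfl⟩
  have hWpos : 0 < W := by rw [hW]; exact Uni.WW_pos y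
  have hW0 : (0 : ℝ) < W := by exact_mod_cast hWpos
  have hφpos : 0 < Nat.totient W := Nat.totient_pos.2 hWpos
  have hφ0 : (0 : ℝ) < Nat.totient W := by exact_mod_cast hφpos
  have hWp : ∀ p : ℕ, p.Prime → p ≤ z → p ∣ W := by
    intro p hp hpK
    rw [hW]
    unfold Uni.WW
    exact dvd_prod_of_mem _ (Nat.mem_primesBelow.2 ⟨by omega, hp⟩)
  obtain ⟨R, hR⟩ : ∃ R : ℝ, R = (W : ℝ) / Nat.totient W := ⟨_, rfl⟩
  have hR0 : 0 < R := by rw [hR]; positivity
  obtain ⟨c₀, hc₀⟩ : ∃ c₀ : ℝ, c₀ = c₁ * ε₁ / R := ⟨_, rfl⟩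
  have hc₀0 : 0 < c₀ := by rw [hc₀]; positivity
  obtain ⟨κ, hκ, hev⟩ := hz c₀ hc₀0
  obtain ⟨C₁, hC₁, hss⟩ := ssT s c₀ ε₁ hc₀0 hε₁0
  refine ⟨κ / C₁, by positivity, ?_⟩
  filter_upwards [hev, hss, eventually_ge_atTop 2] with N hN hNs hN2 A hA
  obtain ⟨hAne, hAN, hAc⟩ := hA
  have hlog0 : 0 < Real.log N := Real.log_pos (by exact_mod_cast (by omega : 1 < N))
  obtain ⟨D, hD⟩ : ∃ D : ℝ, D = nb N A * Real.log N := ⟨_, rfl⟩
  rw [← hD] at hAc
  have hnbA : 1 ≤ nb N A := by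
    unfold nb
    exact (hAne.image _).card_pos
  have hnbA' : (1 : ℝ) ≤ nb N A := by exact_mod_cast hnbA
  have hD0 : 0 < D := by rw [hD]; positivity
  have hA2 : R ^ (s + 1) * (c₀ * D) ^ (s + 1) ≤ ε₁ * (A.card : ℝ) ^ (s + 1) := by
    rw [← mul_pow]
    have h1 : R * (c₀ * D) ≤ ε₁ * A.card := by
      have e : R * (c₀ * D) = ε₁ * (c₁ * D) := by
        rw [hc₀]
        field_simp
      rw [e]
      exact mul_le_mul_of_nonneg_left hAc hε₁0.le
    calc (R * (c₀ * D)) ^ (s + 1) ≤ (ε₁ * A.card) ^ (s + 1) := pow_le_pow_left₀ (by positivity) h1 _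
      _ = ε₁ ^ (s + 1) * (A.card : ℝ) ^ (s + 1) := mul_pow _ _ _
      _ ≤ ε₁ * (A.card : ℝ) ^ (s + 1) := by
          apply mul_le_mul_of_nonneg_right _ (by positivity)
          exact pow_le_of_le_one hε₁0.le (by linarith) (by omega)
  -- the sets
  obtain ⟨E, hE⟩ : ∃ E, E = gdR s (κ / C₁) N A := ⟨_, rfl⟩
  rw [← hE]
  obtain ⟨B, hB⟩ : ∃ B : ℕ → Finset ℕ, B = fun ν => A.filter (fun a => Nat.Coprime W (ν + a)) := ⟨_, rfl⟩
  obtain ⟨F, hF⟩ : ∃ F : ℕ → Finset (Finset ℕ), F = fun ν => E.filter (fun T => ∀ t ∈ T, Nat.Coprime W (ν + t)) :=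
    ⟨_, rfl⟩
  have hEcard : ∀ T ∈ E, T.card = s + 1 := by
    intro T hT
    rw [hE] at hT
    unfold gdR at hT
    exact (mem_powersetCard.1 (mem_filter.1 hT).1).2
  -- one residue class
  have h1 : ∀ ν ∈ range W, (c - 2 * ε₁) * ((B ν).card : ℝ) ^ (s + 1) ≤
      ((F ν).card : ℝ) * (s + 1).factorial + (c₀ * D) ^ (s + 1) := by
    intro ν hν
    rw [mem_range] at hν
    rcases lt_or_ge ((B ν).card : ℝ) (c₀ * D) with h | h
    · have h2 : ((B ν).card : ℝ) ^ (s + 1) ≤ (c₀ * D) ^ (s + 1) :=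
        pow_le_pow_left₀ (by positivity) h.le _
      have h3 : (c - 2 * ε₁) * ((B ν).card : ℝ) ^ (s + 1) ≤ 1 * ((B ν).card : ℝ) ^ (s + 1) :=
        mul_le_mul_of_nonneg_right (by linarith) (by positivity)
      have h4 : 0 ≤ ((F ν).card : ℝ) * (s + 1).factorial := by positivity
      linarith
    · have hBA : B ν ⊆ A := by rw [hB]; exact filter_subset _ _
      have hBT : Thk c₀ N (B ν) := by
        refine ⟨?_, fun v hv => hAN v (hBA hv), ?_⟩
        · rw [← card_pos]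
          have : (0 : ℝ) < (B ν).card := lt_of_lt_of_le (by positivity) h
          exact_mod_cast this
        · refine le_trans ?_ h
          apply mul_le_mul_of_nonneg_left _ hc₀0.le
          rw [hD]
          apply mul_le_mul_of_nonneg_right _ hlog0.le
          have : nb N (B ν) ≤ nb N A := by
            unfold nb
            exact card_le_card (image_subset_image hBA)
          exact_mod_cast this
      have h2 := hN (B ν) hBT (by
        intro p hp hpz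
        refine ⟨ν, fun v hv hdvd => ?_⟩
        rw [hB, mem_filter] at hv
        have h3 : p ∣ ν + v := by exact_mod_cast hdvd
        have h4 : p ∣ 1 := by
          have := Nat.dvd_gcd (hWp p hp hpz) h3
          rwa [Nat.Coprime.gcd_eq_one hv.2] at this
        exact hp.one_lt.ne' (Nat.dvd_one.1 h4))
      rw [← hc] at h2
      have h2s := hNs (B ν) hBT
      have h3 := sum_inj (B ν) (s + 1) (fun T => if (κ * (N / (Real.log N) ^ (s + 1)) ≤ (cR N T : ℝ) ∧
        Uni.CT T ≤ C₁) then (1 : ℝ) else 0)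
      rw [← sum_filter, filter_filter, sum_const, nsmul_eq_mul, mul_one] at h3
      have h4 : ((((Fintype.piFinset (fun _ : Fin (s + 1) => B ν)).filter (fun y : Fin (s + 1) → ℕ =>
          Function.Injective y ∧ Gu κ N y)).card : ℕ) : ℝ) ≤
          ((((Fintype.piFinset (fun _ : Fin (s + 1) => B ν)).filter (fun y : Fin (s + 1) → ℕ =>
          Function.Injective y ∧ (κ * (N / (Real.log N) ^ (s + 1)) ≤ (cR N (univ.image y) : ℝ) ∧
            Uni.CT (univ.image y) ≤ C₁))).card : ℕ) : ℝ) +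
          ((((Fintype.piFinset (fun _ : Fin (s + 1) => B ν)).filter (fun y : Fin (s + 1) → ℕ =>
          Function.Injective y ∧ C₁ < Uni.CT (univ.image y))).card : ℕ) : ℝ) := by
        rw [← Nat.cast_add, Nat.cast_le]
        refine le_trans (card_le_card ?_) (card_union_le _ _)
        intro y hy
        rw [mem_filter] at hy
        rw [mem_union, mem_filter, mem_filter]
        obtain ⟨h5, h6, h7⟩ := hy
        unfold Gu at h7
        rw [pF_eq] at h7
        by_cases h8 : Uni.CT (univ.image y) ≤ C₁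
        · exact Or.inl ⟨h5, h6, h7, h8⟩
        · exact Or.inr ⟨h5, h6, not_le.1 h8⟩
      rw [h3, ← sum_filter, sum_const, nsmul_eq_mul, mul_one] at h4
      have h5 : ((B ν).powersetCard (s + 1)).filter
          (fun T => κ * (N / (Real.log N) ^ (s + 1)) ≤ (cR N T : ℝ) ∧ Uni.CT T ≤ C₁) ⊆ F ν := by
        intro T hT
        rw [mem_filter, mem_powersetCard] at hT
        have hT1 : ∀ t ∈ T, t ∈ A ∧ Nat.Coprime W (ν + t) := by
          intro t ht
          have := hT.1.1 ht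
          rw [hB, mem_filter] at this
          exact this
        rw [hF, mem_filter]
        refine ⟨?_, fun t ht => (hT1 t ht).2⟩
        rw [hE]
        unfold gdR
        rw [mem_filter, mem_powersetCard]
        refine ⟨⟨fun t ht => (hT1 t ht).1, hT.1.2⟩, ?_⟩
        refine le_trans ?_ hT.2.1
        apply mul_le_mul_of_nonneg_right _ (by positivity)
        calc κ / C₁ * Uni.CT T ≤ κ / C₁ * C₁ := mul_le_mul_of_nonneg_left hT.2.2 (by positivity)
          _ = κ := by field_simp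
      have h6 : (((B ν).powersetCard (s + 1)).filter
          (fun T => κ * (N / (Real.log N) ^ (s + 1)) ≤ (cR N T : ℝ) ∧ Uni.CT T ≤ C₁)).card ≤ (F ν).card :=
        card_le_card h5
      have h7 : ((((B ν).powersetCard (s + 1)).filter
          (fun T => κ * (N / (Real.log N) ^ (s + 1)) ≤ (cR N T : ℝ) ∧ Uni.CT T ≤ C₁)).card : ℝ) ≤ (F ν).card := by
        exact_mod_cast h6
      have h8 : (0 : ℝ) ≤ (c₀ * D) ^ (s + 1) := by positivity
      have h9 : (0 : ℝ) < (s + 1).factorial := by exact_mod_cast Nat.factorial_pos _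
      nlinarith
  -- sum over the residue classes
  have hsumB : ∑ ν ∈ range W, ((B ν).card : ℝ) = A.card * Nat.totient W := by
    have h2 : ∑ ν ∈ range W, (B ν).card = A.card * Nat.totient W := by
      rw [hB]
      simp only [card_filter]
      rw [sum_comm]
      have h3 : ∀ a ∈ A, ∑ ν ∈ range W, (if Nat.Coprime W (ν + a) then 1 else 0) = Nat.totient W := by
        intro a _
        rw [← card_filter]
        exact card_cop W a
      rw [sum_congr rfl h3, sum_const, smul_eq_mul]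
    exact_mod_cast h2
  have hsumF : ∑ ν ∈ range W, ((F ν).card : ℝ) = ∑ T ∈ E, (Uni.gT W T : ℝ) := by
    have h2 : ∑ ν ∈ range W, (F ν).card = ∑ T ∈ E, Uni.gT W T := by
      rw [hF]
      unfold Uni.gT
      simp only [card_filter]
      rw [sum_comm]
    exact_mod_cast h2
  have hpow : (A.card * Nat.totient W : ℝ) ^ (s + 1) / (W : ℝ) ^ s ≤ ∑ ν ∈ range W, ((B ν).card : ℝ) ^ (s + 1) := by
    have h2 := pow_sum_div_card_le_sum_pow (s := range W) (f := fun ν => ((B ν).card : ℝ))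
      (fun _ _ => Nat.cast_nonneg _) s
    rw [hsumB, card_range] at h2
    exact h2
  have h2 : (c - 2 * ε₁) * ((A.card * Nat.totient W : ℝ) ^ (s + 1) / (W : ℝ) ^ s) ≤
      (∑ T ∈ E, (Uni.gT W T : ℝ)) * (s + 1).factorial + W * (c₀ * D) ^ (s + 1) := by
    calc _ ≤ (c - 2 * ε₁) * ∑ ν ∈ range W, ((B ν).card : ℝ) ^ (s + 1) :=
          mul_le_mul_of_nonneg_left hpow (by linarith)
      _ = ∑ ν ∈ range W, (c - 2 * ε₁) * ((B ν).card : ℝ) ^ (s + 1) := by rw [mul_sum]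
      _ ≤ ∑ ν ∈ range W, (((F ν).card : ℝ) * (s + 1).factorial + (c₀ * D) ^ (s + 1)) := sum_le_sum h1
      _ = _ := by
          rw [sum_add_distrib, ← sum_mul, hsumF, sum_const, card_range, nsmul_eq_mul]
  -- the singular series
  have h3 : ∀ T ∈ E, (1 - ε₁) * (R ^ (s + 1) * (Uni.gT W T / W)) ≤ Uni.CT T := by
    intro T hT
    have h4 := CT_ge' T y (by omega) (by rw [hEcard T hT]; exact hys)
    rw [hEcard T hT, ← hW, ← hR] at h4
    refine le_trans ?_ h4
    apply mul_le_mul_of_nonneg_right _ (by positivity)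
    linarith
  have h4 : (1 - ε₁) * (R ^ (s + 1) / W * ∑ T ∈ E, (Uni.gT W T : ℝ)) ≤ ∑ T ∈ E, Uni.CT T := by
    calc _ = ∑ T ∈ E, (1 - ε₁) * (R ^ (s + 1) * (Uni.gT W T / W)) := by
          rw [mul_sum, mul_sum]
          refine sum_congr rfl fun T _ => ?_
          ring
      _ ≤ _ := sum_le_sum h3
  have hfac : (0 : ℝ) < (s + 1).factorial := by exact_mod_cast Nat.factorial_pos _
  have h5 : R ^ (s + 1) / W * ((c - 2 * ε₁) * ((A.card * Nat.totient W : ℝ) ^ (s + 1) / (W : ℝ) ^ s)) =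
      (c - 2 * ε₁) * (A.card : ℝ) ^ (s + 1) := by
    rw [hR, div_pow, mul_pow]
    field_simp
    ring
  have h6 : R ^ (s + 1) / W * ((c - 2 * ε₁) * ((A.card * Nat.totient W : ℝ) ^ (s + 1) / (W : ℝ) ^ s)) ≤
      R ^ (s + 1) / W * ((∑ T ∈ E, (Uni.gT W T : ℝ)) * (s + 1).factorial + W * (c₀ * D) ^ (s + 1)) :=
    mul_le_mul_of_nonneg_left h2 (by positivity)
  rw [h5] at h6
  have h7 : R ^ (s + 1) / W * ((∑ T ∈ E, (Uni.gT W T : ℝ)) * (s + 1).factorial + W * (c₀ * D) ^ (s + 1)) =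
      (s + 1).factorial * (R ^ (s + 1) / W * ∑ T ∈ E, (Uni.gT W T : ℝ)) + R ^ (s + 1) * (c₀ * D) ^ (s + 1) := by
    field_simp
  rw [h7] at h6
  have hA3 : (0 : ℝ) ≤ (A.card : ℝ) ^ (s + 1) := by positivity
  have h8 : (c - 3 * ε₁) * (A.card : ℝ) ^ (s + 1) ≤
      (s + 1).factorial * (R ^ (s + 1) / W * ∑ T ∈ E, (Uni.gT W T : ℝ)) := by linarith
  calc (c - ε) * (A.card : ℝ) ^ (s + 1) ≤ (1 - ε₁) * ((c - 3 * ε₁) * (A.card : ℝ) ^ (s + 1)) := by
        have h9 : c - ε ≤ (1 - ε₁) * (c - 3 * ε₁) := by nlinarith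
        calc _ ≤ ((1 - ε₁) * (c - 3 * ε₁)) * (A.card : ℝ) ^ (s + 1) := mul_le_mul_of_nonneg_right h9 hA3
          _ = _ := by ring
    _ ≤ (1 - ε₁) * ((s + 1).factorial * (R ^ (s + 1) / W * ∑ T ∈ E, (Uni.gT W T : ℝ))) :=
        mul_le_mul_of_nonneg_left h8 (by linarith)
    _ = (s + 1).factorial * ((1 - ε₁) * (R ^ (s + 1) / W * ∑ T ∈ E, (Uni.gT W T : ℝ))) := by ring
    _ ≤ _ := mul_le_mul_of_nonneg_left h4 hfac.le

end Pool.Agent.K9h13.FH
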