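import Pool.Agent.K9h13.FE.Hered
import Pool.Agent.K9h13.FH.Mass

/-!
# Every log-thick set of shifts contains its share of prime tuples of the right order
-/

set_option autoImplicit false

namespace Pool.Agent.K9h13.FH

open Finset Filter Topology Pool.Agent.H387R2
open Pool.Agent.N646.RO (S_BRM)
open Pool.Agent.Helper22K9.Trp (pi3 S3 tri st sum_three S3_eq S3_nonneg prs)
open Pool.Agent.K9h13.FC (shp mx pr)
open Pool.Agent.K9h13.FE (cR gdR cR_le_pr conv scale R3 cR_le_pi3 tr3 shR S_HITM)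

/-- the number of the intervals `[j log x, (j + 1) log x)` which contain elements of `A` -/
noncomputable def blocks (x : ℝ) (A : Finset ℕ) : ℕ := (A.image (fun a : ℕ => ⌊(a : ℝ) / Real.log x⌋₊)).card

lemma nb_le (x : ℝ) (hx : 1000 ≤ x) (N : ℕ) (hN1 : x / 4 ≤ N) (A : Finset ℕ) :
    nb N A ≤ 3 * blocks x A := by
  classical
  obtain ⟨L, hL⟩ : ∃ L, L = ⌊Real.log N⌋₊ + 1 := ⟨_, rfl⟩
  have hlogN : Real.log N < L := by
    rw [hL]
    push_cast
    exact Nat.lt_floor_add_one _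
  have hlx : 0 < Real.log x := Real.log_pos (by linarith)
  have h4 : Real.log x - Real.log 4 ≤ Real.log N := by
    rw [← Real.log_div (by linarith) (by norm_num)]
    exact Real.log_le_log (by linarith) hN1
  have hl4 : Real.log 4 ≤ 1.4 := by
    have : (4 : ℝ) = 2 ^ 2 := by norm_num
    rw [this, Real.log_pow]
    have := Real.log_two_lt_d9
    push_cast
    linarith
  have hlx4 : 4 ≤ Real.log x := by
    rw [Real.le_log_iff_exp_le (by linarith)]
    have h1 := Real.exp_one_lt_d9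
    have h2 : Real.exp 4 = Real.exp 1 ^ 4 := by
      rw [← Real.exp_nat_mul]
      norm_num
    rw [h2]
    calc Real.exp 1 ^ 4 ≤ 3 ^ 4 := pow_le_pow_left₀ (Real.exp_pos _).le (by linarith) 4
      _ ≤ 1000 := by norm_num
      _ ≤ x := hx
  have hL2 : Real.log x + 1 ≤ 2 * L := by linarith
  have hL1 : 1 ≤ L := by omega
  have hsub : A.image (fun v => v / L) ⊆ (A.image (fun a : ℕ => ⌊(a : ℝ) / Real.log x⌋₊)).biUnion
      (fun i => Icc (⌊(i : ℝ) * Real.log x⌋₊ / L) (⌊(i : ℝ) * Real.log x⌋₊ / L + 2)) := by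
    intro j hj
    obtain ⟨a, ha, rfl⟩ := mem_image.1 hj
    rw [mem_biUnion]
    refine ⟨⌊(a : ℝ) / Real.log x⌋₊, mem_image_of_mem _ ha, ?_⟩
    obtain ⟨i, hi⟩ : ∃ i, i = ⌊(a : ℝ) / Real.log x⌋₊ := ⟨_, rfl⟩
    rw [← hi, mem_Icc]
    obtain ⟨u, hu⟩ : ∃ u, u = ⌊(i : ℝ) * Real.log x⌋₊ := ⟨_, rfl⟩
    rw [← hu]
    have h5 : (i : ℝ) ≤ a / Real.log x := by rw [hi]; exact Nat.floor_le (by positivity)
    have h6 : (a : ℝ) / Real.log x < i + 1 := by rw [hi]; exact Nat.lt_floor_add_one _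
    rw [le_div_iff₀ hlx] at h5
    rw [div_lt_iff₀ hlx] at h6
    have h7 : u ≤ a := by
      rw [hu]
      exact Nat.floor_le_of_le h5
    have h8 : (i : ℝ) * Real.log x < u + 1 := by rw [hu]; exact Nat.lt_floor_add_one _
    have h9 : a ≤ u + 2 * L := by
      have : (a : ℝ) < u + 2 * L := by linarith
      have : (a : ℝ) ≤ ((u + 2 * L : ℕ) : ℝ) := by push_cast; linarith
      exact_mod_cast this
    constructor
    · exact Nat.div_le_div_right h7
    · calc a / L ≤ (u + 2 * L) / L := Nat.div_le_div_right h9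
        _ = u / L + 2 := Nat.add_mul_div_right _ _ (by omega)
  have hnb : nb N A = (A.image (fun v => v / L)).card := by rw [hL]; rfl
  rw [hnb]
  refine (card_le_card hsub).trans (card_biUnion_le.trans ?_)
  have h10 : ∀ i ∈ A.image (fun a : ℕ => ⌊(a : ℝ) / Real.log x⌋₊),
      (Icc (⌊(i : ℝ) * Real.log x⌋₊ / L) (⌊(i : ℝ) * Real.log x⌋₊ / L + 2)).card = 3 := by
    intro i _
    rw [Nat.card_Icc]
    omega
  rw [sum_congr rfl h10, sum_const, smul_eq_mul]
  unfold blocks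
  omega

lemma thk_of (η x : ℝ) (hη : 0 < η) (hx : 1000 ≤ x) (N : ℕ) (hN1 : x / 4 ≤ N) (hN2 : (N : ℝ) ≤ x) (A : Finset ℕ)
    (hAne : A.Nonempty) (hA : ∀ a ∈ A, 8 * (a : ℝ) ≤ x) (hAη : η * (blocks x A * Real.log x) ≤ A.card) :
    Thk (η / 3) N A := by
  have hN0 : (0 : ℝ) < N := by linarith
  refine ⟨hAne, ?_, ?_⟩
  · intro v hv
    have h1 := hA v hv
    have : (2 * (v : ℝ)) ≤ N := by linarith
    exact_mod_cast this
  · have h1 := nb_le x hx N hN1 A
    have h2 : (nb N A : ℝ) ≤ 3 * blocks x A := by exact_mod_cast h1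
    have h3 : Real.log N ≤ Real.log x := Real.log_le_log hN0 hN2
    have h4 : 0 ≤ Real.log N := Real.log_nonneg (by linarith)
    have h5 : (nb N A : ℝ) * Real.log N ≤ 3 * blocks x A * Real.log x :=
      mul_le_mul h2 h3 h4 (by positivity)
    calc η / 3 * (nb N A * Real.log N) ≤ η / 3 * (3 * blocks x A * Real.log x) :=
          mul_le_mul_of_nonneg_left h5 (by positivity)
      _ = η * (blocks x A * Real.log x) := by ring
      _ ≤ _ := hAη

open Classical in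
/-- **Log-thick sets of shifts, `k`-tuples.** -/
theorem shA (hBRM : S_BRM) (s : ℕ) (hH : T_HITM s) (ε : ℝ) (hε : 0 < ε) (η : ℝ) (hη : 0 < η) :
    ∃ κ : ℝ, 0 < κ ∧ ∃ X : ℝ, ∀ x : ℝ, X ≤ x → ∀ A : Finset ℕ, (∀ a ∈ A, 8 * (a : ℝ) ≤ x) →
      η * (blocks x A * Real.log x) ≤ A.card →
      ((5 / 18) ^ s - ε) * ((A.card : ℝ) ^ (s + 1) / (s + 1).factorial) ≤
        ∑ T ∈ (A.powersetCard (s + 1)).filter
          (fun T => κ * Uni.CT T * (x / (Real.log x) ^ (s + 1)) ≤ (pr x T : ℝ)), Uni.CT T := by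
  obtain ⟨κ, hκ, h⟩ := massT hBRM s hH ε hε (η / 3) (by positivity)
  refine ⟨κ / 4, by positivity, ?_⟩
  have tN : Tendsto (fun x : ℝ => ⌊x / 3⌋₊) atTop atTop :=
    tendsto_nat_floor_atTop.comp (tendsto_id.atTop_div_const (by norm_num))
  have hev : ∀ᶠ x : ℝ in atTop, ∀ A : Finset ℕ, (∀ a ∈ A, 8 * (a : ℝ) ≤ x) →
      η * (blocks x A * Real.log x) ≤ A.card →
      ((5 / 18) ^ s - ε) * ((A.card : ℝ) ^ (s + 1) / (s + 1).factorial) ≤
        ∑ T ∈ (A.powersetCard (s + 1)).filter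
          (fun T => κ / 4 * Uni.CT T * (x / (Real.log x) ^ (s + 1)) ≤ (pr x T : ℝ)), Uni.CT T := by
    filter_upwards [tN.eventually h, scale (s + 1), eventually_ge_atTop (1000 : ℝ)] with x hx hsc hx100
      A hA hAη
    rcases A.eq_empty_or_nonempty with hA0 | hAne
    · rw [hA0, card_empty]
      have : ((0 : ℕ) : ℝ) ^ (s + 1) = 0 := by
        push_cast
        exact zero_pow (by omega)
      rw [this, zero_div, mul_zero]
      exact sum_nonneg fun T _ => Uni.CT_nonneg T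
    obtain ⟨N, hN⟩ : ∃ N, N = ⌊x / 3⌋₊ := ⟨_, rfl⟩
    rw [← hN] at hx hsc
    have hb1 : x / 3 < N + 1 := by rw [hN]; exact Nat.lt_floor_add_one _
    have hb2 : (N : ℝ) ≤ x / 3 := by rw [hN]; exact Nat.floor_le (by positivity)
    have key := hx A (thk_of η x hη hx100 N (by linarith) (by linarith) A hAne hA hAη)
    have hf : (0 : ℝ) < (s + 1).factorial := by exact_mod_cast Nat.factorial_pos _
    have k1 : ((5 / 18) ^ s - ε) * ((A.card : ℝ) ^ (s + 1) / (s + 1).factorial) ≤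
        ∑ T ∈ gdR s κ N A, Uni.CT T := by
      rw [← mul_div_assoc, div_le_iff₀ hf]
      linarith
    refine k1.trans ?_
    apply sum_le_sum_of_subset_of_nonneg
    · intro T hT
      unfold gdR at hT
      rw [mem_filter] at hT ⊢
      exact ⟨hT.1, conv hκ hsc hT.2 (cR_le_pr T N x (by push_cast; linarith))⟩
    · intro T _ _
      exact Uni.CT_nonneg T
  obtain ⟨X, hX⟩ := eventually_atTop.1 hev
  exact ⟨X, fun x hx => hX x hx⟩

open Classical in
/-- **Log-thick sets of shifts, triples.** -/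
theorem trA (hBRM : S_BRM) (hH : T_HITM 2) (ε : ℝ) (hε : 0 < ε) (η : ℝ) (hη : 0 < η) :
    ∃ κ : ℝ, 0 < κ ∧ ∃ X : ℝ, ∀ x : ℝ, X ≤ x → ∀ A : Finset ℕ, (∀ a ∈ A, 8 * (a : ℝ) ≤ x) →
      η * (blocks x A * Real.log x) ≤ A.card →
      (25 / 324 - ε) * ((A.card : ℝ) ^ 3 / 6) ≤
        ∑ u ∈ (A ×ˢ A ×ˢ A).filter (fun u => u.1 < u.2.1 ∧ u.2.1 < u.2.2 ∧
            κ ≤ R3 x (u.2.2 - u.2.1) (u.2.2 - u.1)), S3 (u.2.2 - u.2.1) (u.2.2 - u.1) := by
  obtain ⟨κ, hκ, h⟩ := massT hBRM 2 hH ε hε (η / 3) (by positivity)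
  refine ⟨κ / 4, by positivity, ?_⟩
  have tN : Tendsto (fun x : ℝ => ⌊x / 3⌋₊) atTop atTop :=
    tendsto_nat_floor_atTop.comp (tendsto_id.atTop_div_const (by norm_num))
  have hev : ∀ᶠ x : ℝ in atTop, ∀ A : Finset ℕ, (∀ a ∈ A, 8 * (a : ℝ) ≤ x) →
      η * (blocks x A * Real.log x) ≤ A.card → (25 / 324 - ε) * ((A.card : ℝ) ^ 3 / 6) ≤
        ∑ u ∈ (A ×ˢ A ×ˢ A).filter (fun u => u.1 < u.2.1 ∧ u.2.1 < u.2.2 ∧
            κ / 4 ≤ R3 x (u.2.2 - u.2.1) (u.2.2 - u.1)), S3 (u.2.2 - u.2.1) (u.2.2 - u.1) := by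
    filter_upwards [tN.eventually h, scale (2 + 1), eventually_ge_atTop (1000 : ℝ)] with x hx hsc hx100
      A hA hAη
    rcases A.eq_empty_or_nonempty with hA0 | hAne
    · rw [hA0]
      simp
    obtain ⟨N, hN⟩ : ∃ N, N = ⌊x / 3⌋₊ := ⟨_, rfl⟩
    rw [← hN] at hx hsc
    have hb1 : x / 3 < N + 1 := by rw [hN]; exact Nat.lt_floor_add_one _
    have hb2 : (N : ℝ) ≤ x / 3 := by rw [hN]; exact Nat.floor_le (by positivity)
    have hlogx : 0 < Real.log x := Real.log_pos (by linarith)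
    have key := hx A (thk_of η x hη hx100 N (by linarith) (by linarith) A hAne hA hAη)
    have e6 : ((2 + 1).factorial : ℝ) = 6 := by norm_num [Nat.factorial]
    have e2 : (5 / 18 : ℝ) ^ 2 = 25 / 324 := by norm_num
    rw [e6, e2] at key
    have k1 : (25 / 324 - ε) * ((A.card : ℝ) ^ 3 / 6) ≤ ∑ T ∈ gdR 2 κ N A, Uni.CT T := by
      have e7 : (2 + 1 : ℕ) = 3 := rfl
      rw [e7] at key
      linarith
    refine k1.trans ?_
    unfold gdR
    rw [sum_filter, sum_three A (fun T =>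
      if κ * Uni.CT T * (N / (Real.log N) ^ (2 + 1)) ≤ (cR N T : ℝ) then Uni.CT T else 0)]
    have e3 : (A ×ˢ A ×ˢ A).filter (fun u => u.1 < u.2.1 ∧ u.2.1 < u.2.2 ∧
            κ / 4 ≤ R3 x (u.2.2 - u.2.1) (u.2.2 - u.1)) =
        (tri A).filter (fun u => κ / 4 ≤ R3 x (u.2.2 - u.2.1) (u.2.2 - u.1)) := by
      unfold tri
      rw [filter_filter]
      apply filter_congr
      intro u _
      tauto
    rw [e3, sum_filter]
    apply sum_le_sum
    intro u hu
    unfold tri at hu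
    rw [mem_filter, mem_product, mem_product] at hu
    obtain ⟨⟨-, -, hcA⟩, hab, hbc⟩ := hu
    have hst : st u = {u.1, u.2.1, u.2.2} := rfl
    rw [hst, ← S3_eq hab hbc]
    have hS0 := S3_nonneg hab hbc
    rcases hS0.eq_or_lt with h0 | hpos
    · rw [← h0]
      simp
    split_ifs with g1 g2
    · exact le_rfl
    · exfalso
      apply g2
      unfold R3
      rw [le_div_iff₀ (by positivity)]
      have hcD2 := hA _ hcA
      rw [S3_eq hab hbc] at g1
      have h5 := conv hκ hsc g1 (cR_le_pi3 hab hbc N x (by push_cast; linarith))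
      rw [← S3_eq hab hbc] at h5
      have h6 := mul_le_mul_of_nonneg_right h5 (by positivity : 0 ≤ (Real.log x) ^ 3)
      refine le_trans (le_of_eq ?_) h6
      field_simp
    · exact hpos.le
    · exact le_rfl
  obtain ⟨X, hX⟩ := eventually_atTop.1 hev
  exact ⟨X, fun x hx => hX x hx⟩

open Classical in
/-- **Triples: both forms.** -/
theorem trBoth (hBRM : S_BRM) (hF : S_HITM 2) (hH : T_HITM 2) (ε : ℝ) (hε : 0 < ε) (lam η : ℝ) (hlam : 0 < lam)
    (hη : 0 < η) : ∃ κ : ℝ, 0 < κ ∧ ∃ X : ℝ, ∀ x : ℝ, X ≤ x →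
      (∀ D : ℕ, lam * Real.log x ≤ D → 8 * (D : ℝ) ≤ x →
        (25 / 324 - ε) * ∑ v ∈ prs D, ((D : ℝ) - v.2) * S3 v.1 v.2 ≤
          ∑ v ∈ (prs D).filter (fun v => κ ≤ R3 x v.1 v.2), ((D : ℝ) - v.2) * S3 v.1 v.2) ∧
      ∀ A : Finset ℕ, (∀ a ∈ A, 8 * (a : ℝ) ≤ x) → η * (blocks x A * Real.log x) ≤ A.card →
        (25 / 324 - ε) * ((A.card : ℝ) ^ 3 / 6) ≤
          ∑ u ∈ (A ×ˢ A ×ˢ A).filter (fun u => u.1 < u.2.1 ∧ u.2.1 < u.2.2 ∧
              κ ≤ R3 x (u.2.2 - u.2.1) (u.2.2 - u.1)), S3 (u.2.2 - u.2.1) (u.2.2 - u.1) := by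
  obtain ⟨κ₁, h1, X₁, H1⟩ := tr3 hBRM hF ε hε lam hlam
  obtain ⟨κ₂, h2, X₂, H2⟩ := trA hBRM hH ε hε η hη
  refine ⟨min κ₁ κ₂, lt_min h1 h2, max X₁ X₂, fun x hx => ⟨fun D hD1 hD2 => ?_, fun A hA hAc => ?_⟩⟩
  · refine (H1 x ((le_max_left _ _).trans hx) D hD1 hD2).trans ?_
    apply sum_le_sum_of_subset_of_nonneg
    · intro v hv
      rw [mem_filter] at hv ⊢
      exact ⟨hv.1, (min_le_left _ _).trans hv.2⟩
    · intro v hv _
      have hv1 := (mem_filter.1 hv).1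
      unfold prs at hv1
      rw [mem_filter, mem_product, mem_Icc, mem_Icc] at hv1
      have h3 : (v.2 : ℝ) ≤ D := by exact_mod_cast hv1.1.2.2
      have h4 : 0 ≤ S3 v.1 v.2 := by
        have h5 : v.2 - v.1 < v.2 := by omega
        have h6 : 0 < v.2 - v.1 := by omega
        have h7 := S3_nonneg h6 h5
        have e1 : v.2 - (v.2 - v.1) = v.1 := by omega
        have e2 : v.2 - 0 = v.2 := by omega
        rw [e1, e2] at h7
        exact h7
      exact mul_nonneg (by linarith) h4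
  · refine (H2 x ((le_max_right _ _).trans hx) A hA hAc).trans ?_
    apply sum_le_sum_of_subset_of_nonneg
    · intro u hu
      rw [mem_filter] at hu ⊢
      exact ⟨hu.1, hu.2.1, hu.2.2.1, (min_le_right _ _).trans hu.2.2.2⟩
    · intro u hu _
      have hu2 := (mem_filter.1 hu).2
      exact S3_nonneg hu2.1 hu2.2.1

open Classical in
/-- **Tuples: both forms.** -/
theorem shBoth (hBRM : S_BRM) (s : ℕ) (hF : S_HITM s) (hH : T_HITM s) (ε : ℝ) (hε : 0 < ε) (lam η : ℝ)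
    (hlam : 0 < lam) (hη : 0 < η) : ∃ κ : ℝ, 0 < κ ∧ ∃ X : ℝ, ∀ x : ℝ, X ≤ x →
      (∀ D : ℕ, lam * Real.log x ≤ D → 8 * (D : ℝ) ≤ x →
        ((5 / 18) ^ s - ε) * ∑ T ∈ shp (s + 1) D, ((D : ℝ) - mx T) * Uni.CT T ≤
          ∑ T ∈ (shp (s + 1) D).filter (fun T => κ * Uni.CT T * (x / (Real.log x) ^ (s + 1)) ≤ (pr x T : ℝ)),
            ((D : ℝ) - mx T) * Uni.CT T) ∧
      ∀ A : Finset ℕ, (∀ a ∈ A, 8 * (a : ℝ) ≤ x) → η * (blocks x A * Real.log x) ≤ A.card →
        ((5 / 18) ^ s - ε) * ((A.card : ℝ) ^ (s + 1) / (s + 1).factorial) ≤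
          ∑ T ∈ (A.powersetCard (s + 1)).filter
            (fun T => κ * Uni.CT T * (x / (Real.log x) ^ (s + 1)) ≤ (pr x T : ℝ)), Uni.CT T := by
  obtain ⟨κ₁, h1, X₁, H1⟩ := shR hBRM s hF ε hε lam hlam
  obtain ⟨κ₂, h2, X₂, H2⟩ := shA hBRM s hH ε hε η hη
  have hmono : ∀ (κ : ℝ) (x : ℝ) (T : Finset ℕ), min κ₁ κ₂ ≤ κ → 1 < x →
      κ * Uni.CT T * (x / (Real.log x) ^ (s + 1)) ≤ (pr x T : ℝ) →
      min κ₁ κ₂ * Uni.CT T * (x / (Real.log x) ^ (s + 1)) ≤ (pr x T : ℝ) := by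
    intro κ x T hκ hx h
    refine le_trans ?_ h
    have h3 : 0 < x / (Real.log x) ^ (s + 1) := by
      have := Real.log_pos hx
      positivity
    apply mul_le_mul_of_nonneg_right _ h3.le
    exact mul_le_mul_of_nonneg_right hκ (Uni.CT_nonneg T)
  refine ⟨min κ₁ κ₂, lt_min h1 h2, max (max X₁ X₂) 2, fun x hx => ⟨fun D hD1 hD2 => ?_, fun A hA hAc => ?_⟩⟩
  · have hx1 : 1 < x := by
      have := (le_max_right _ _).trans hx
      linarith
    refine (H1 x (((le_max_left _ _).trans (le_max_left _ _)).trans hx) D hD1 hD2).trans ?_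
    apply sum_le_sum_of_subset_of_nonneg
    · intro T hT
      rw [mem_filter] at hT ⊢
      exact ⟨hT.1, hmono _ x T (min_le_left _ _) hx1 hT.2⟩
    · intro T hT _
      have hT1 := (mem_filter.1 hT).1
      unfold shp at hT1
      rw [mem_filter, mem_powersetCard] at hT1
      have h3 : mx T ≤ D := by
        unfold mx
        apply Finset.sup_le
        intro t ht
        exact (mem_range.1 (hT1.1.1 ht)).le
      have h4 : (mx T : ℝ) ≤ D := by exact_mod_cast h3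
      exact mul_nonneg (by linarith) (Uni.CT_nonneg T)
  · have hx1 : 1 < x := by
      have := (le_max_right _ _).trans hx
      linarith
    refine (H2 x (((le_max_right _ _).trans (le_max_left _ _)).trans hx) A hA hAc).trans ?_
    apply sum_le_sum_of_subset_of_nonneg
    · intro T hT
      rw [mem_filter] at hT ⊢
      exact ⟨hT.1, hmono _ x T (min_le_right _ _) hx1 hT.2⟩
    · intro T _ _
      exact Uni.CT_nonneg T

end Pool.Agent.K9h13.FH
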