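import Pool.Agent.K9h13.FE.St

/-! # The right order of magnitude for prime tuples with shifts in log-thick sets: statements -/

set_option autoImplicit false

namespace Pool.Agent.K9h13.FH

open Finset Filter Topology
open Pool.Agent.N646.RO (Rgh)
open Pool.Agent.K9h13.FE (pF)

/-- the number of the blocks of length `⌊log N⌋ + 1` which contain elements of `V` -/
noncomputable def nb (N : ℕ) (V : Finset ℕ) : ℕ := (V.image (fun v => v / (⌊Real.log N⌋₊ + 1))).card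

/-- `V` contains a positive proportion of the integers of the blocks which meet it -/
def Thk (c₀ : ℝ) (N : ℕ) (V : Finset ℕ) : Prop :=
  V.Nonempty ∧ (∀ v ∈ V, 2 * v ≤ N) ∧ c₀ * (nb N V * Real.log N) ≤ V.card

/-- the right order of magnitude, without the singular series -/
def Gu {k : ℕ} (κ : ℝ) (N : ℕ) (F : Fin (k + 1) → ℕ) : Prop :=
  κ * (N / (Real.log N) ^ (k + 1)) ≤ (pF N F : ℝ)

open Classical in
/-- **E1** the second moment of the number of rough integers just below `n`, over all configurations. -/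
def T_E1 : Prop := ∀ (T K s : ℕ) (δ c₀ : ℝ), 0 < δ → 0 < c₀ → ∃ C : ℝ, 0 < C ∧
  ∀ᶠ N : ℕ in atTop, ∀ V : Finset ℕ, Thk c₀ N V →
    ∑ H ∈ Fintype.piFinset (fun _ : Fin T × Fin K => V),
      ∑ n ∈ (Icc (N / 18) (2 * N)).filter (fun n : ℕ => ∀ x, Rgh δ N (n + H x)),
        (((range (⌊Real.log N⌋₊ + s + 1)).filter (fun j : ℕ => Rgh δ N (n - j))).card : ℝ) ^ 2 ≤
      C * N * (V.card / Real.log N) ^ (T * K)

open Classical in
/-- **E2** the bad tuples contribute little. -/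
def T_E2 (k : ℕ) : Prop := ∀ (T K : ℕ) (δ c₀ : ℝ), 0 < δ → 0 < c₀ → ∃ C : ℝ, 0 < C ∧
  ∀ᶠ N : ℕ in atTop, ∀ V : Finset ℕ, Thk c₀ N V →
    ∀ κ : ℝ, 0 < κ → κ ≤ 1 → ∀ π : Fin (k + 1) → Fin T × Fin K, Function.Injective π →
    ∑ H ∈ (Fintype.piFinset (fun _ : Fin T × Fin K => V)).filter
        (fun H => Function.Injective H ∧ ¬ Gu κ N (fun i => H (π i))),
      (((Icc (N / 18) (2 * N)).filter (fun n : ℕ => (∀ x, Rgh δ N (n + H x)) ∧
        ∀ i, (n + H (π i)).Prime)).card : ℝ) ≤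
      C * Real.sqrt κ * N * (V.card / Real.log N) ^ (T * K)

open Classical in
/-- **HITM** for most configurations there is a large transversal all of whose `k + 1` element subsets
have the right order of magnitude. -/
def T_HITM (k : ℕ) : Prop := ∀ T M : ℕ, 1 ≤ T → (18 / 5 : ℝ) * M < T → ∃ K : ℕ, 1 ≤ K ∧
  ∀ c₀ δ' : ℝ, 0 < c₀ → 0 < δ' → ∃ κ : ℝ, 0 < κ ∧ ∀ᶠ N : ℕ in atTop,
    ∀ V : Finset ℕ, Thk c₀ N V →
    (∀ p : ℕ, p.Prime → p ≤ T * K → ∃ r : ℤ, ∀ v ∈ V, ¬ (p : ℤ) ∣ r + v) →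
    (((Fintype.piFinset (fun _ : Fin T × Fin K => V)).filter (fun H => Function.Injective H ∧
      ¬ ∃ (S : Finset (Fin T)) (σ : Fin T → Fin K), M + 1 ≤ S.card ∧
        ∀ F : Fin (k + 1) → ℕ, Function.Injective F → (∀ i, ∃ g ∈ S, F i = H (g, σ g)) →
          Gu κ N F)).card : ℝ) ≤ δ' * (V.card : ℝ) ^ (T * K)

end Pool.Agent.K9h13.FH
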